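import Pool.Agent.H17.VS.Defs

/-!
# MP_70ba79_ag: targets of the board `vs_modules`, part B (linear algebra of velocities)
-/

set_option autoImplicit false

namespace Pool.Agent.H17.VS

open MvPolynomial SC Pool.Agent.H27.LV Pool.Agent.H17.VG Pool.Agent.H17.CI

/-- SMV: symbols are linear and homogeneous, and the derivative of the value at `x` -/
def T_SMV : Prop := ∀ (R K : Type) [Field R] [Field K] [Algebra R K] (n : ℕ) (ι : Type)
  (e : ι → ℕ) (F : Tup ι K n) (θ θ' : Derivation R K K) (l l' : ι → K) (a b : K)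
  (x : Fin (n + 1) → K),
  smb F (a • θ + b • θ') (a • l + b • l') = a • smb F θ l + b • smb F θ' l' ∧
  ((∀ i, (F i).IsHomogeneous (e i + 1)) → ∀ i, (smb F θ l i).IsHomogeneous (e i + 1)) ∧
  ∀ i, θ (eval x (F i)) = eval x (smb F θ l i) - l i * eval x (F i) +
    ∑ j, θ (x j) * eval x (pderiv j (F i))

/-- UVM: membership in `UV` (the set in its definition is a subspace) -/
def T_UVM : Prop := ∀ (R K : Type) [Field R] [Field K] [Algebra R K] (n : ℕ) (ι : Type)
  (F : Tup ι K n) (x : Fin (n + 1) → K) (W : Submodule K (Tup ι K n)) (w : Fin (n + 1) → K),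
  w ∈ UV R F x W ↔ ∃ (θ : Derivation R K K) (l : ι → K), smb F θ l ∈ W ∧ w = fun i => θ (x i)

/-- TZV: the tangent space of `F i = 0`, `i` in `Z`. The gradients are independent on `TV`: if
`∑ λ_i dF_i (θ x) = 0` for all `θ` then `∑ λ_i G_i (x) = 0` for all symbols `G`. -/
def T_TZV : Prop := ∀ (R K : Type) [Field R] [Field K] [CharZero K] [Algebra R K] (n : ℕ)
  (ι : Type) (e : ι → ℕ) (F : Tup ι K n) (D : Derivation R K K) (Z : Finset ι)
  (x : Fin (n + 1) → K), SysV e F D → PtV Z F D x → ∀ (B : Finset (Fin n)) (g : Fin n → B → K),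
  Fr R x B g →
  (fun i => D (x i)) ∈ TZ R Z F x ∧
  Module.finrank K (TZ R Z F x) + Z.card = B.card ∧
  (∀ W : Submodule K (Tup ι K n), (∀ G ∈ W, ∀ i ∈ Z, eval x (G i) = 0) →
    UV R F x W ≤ TZ R Z F x ∧ (fun i => D (x i)) ∈ UV R F x W) ∧
  LinearIndependent K fun i : Z => grB F x g i.1

/-- IPV: every vector of `TZ` is a velocity of a derivation (with scalings
`l i = - (cD θ F_i) (x) / F_i (x)`, `i` not in `Z`) whose symbol vanishes at `x`; by T_IP such
symbols are combinations of the families `lin ξ * frmT q` with `ξ (x) = 0` -/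
def T_IPV : Prop := ∀ (R K : Type) [Field R] [Field K] [CharZero K] [Algebra R K] (n : ℕ)
  (ι : Type) [Fintype ι] (e : ι → ℕ) (F : Tup ι K n) (D : Derivation R K K) (Z : Finset ι)
  (x : Fin (n + 1) → K), SysV e F D → PtV Z F D x →
  UV R F x (Submodule.span K {G | ∃ (ξ : Fin (n + 1) → K) (q : (Σ i, Mon (n + 1) (e i)) → K),
    ∑ i, ξ i * x i = 0 ∧ G = fun i => lin ξ * frmT q i}) = TZ R Z F x

/-- ONV: one step. If `UV (PQT Q)` is not `TZ` then by T_IPV some `lin ξ * frmT q` is the symbol of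
a derivation with velocity not in it, and we can take for `q` a vector of the standard basis (the
velocities of derivations with symbol zero, that is of the multiples of `D` and scalings, are in
`UV`) -/
def T_ONV : Prop := ∀ (R k K : Type) [Field R] [Field k] [Field K] [CharZero K] [Algebra k K]
  [Algebra R K] (n s : ℕ) (ι : Type) [Fintype ι] (e : ι → ℕ) (F : Tup ι K n)
  (D : Derivation R K K) (Z : Finset ι) (x : Fin (n + 1) → K), SysV e F D → PtV Z F D x →
  ∀ Q : Fin s → (Σ i, Mon (n + 1) (e i)) → k,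
  UV R F x (PQT x fun j => upT K (frmT (Q j))) ≠ TZ R Z F x →
  ∃ Q' : Fin (s + 1) → (Σ i, Mon (n + 1) (e i)) → k,
    Module.finrank K (UV R F x (PQT x fun j => upT K (frmT (Q j)))) <
      Module.finrank K (UV R F x (PQT x fun j => upT K (frmT (Q' j))))

/-- STV: the steps -/
def T_STV : Prop := ∀ (R k K : Type) [Field R] [Field k] [Field K] [CharZero K] [Algebra k K]
  [Algebra R K] (n : ℕ) (ι : Type) [Fintype ι] (e : ι → ℕ) (F : Tup ι K n)
  (D : Derivation R K K) (Z : Finset ι) (x : Fin (n + 1) → K), SysV e F D → PtV Z F D x →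
  ∀ (B : Finset (Fin n)) (g : Fin n → B → K), Fr R x B g →
  ∃ (s : ℕ) (Q : Fin s → (Σ i, Mon (n + 1) (e i)) → k), s + 1 + Z.card ≤ B.card ∧
    UV R F x (PQT x fun j => upT K (frmT (Q j))) = TZ R Z F x

/-- NAV: choice of columns. The columns of all `θ i j` (symbol `X_i Q_j`), all `θ' i` (symbol
`F_i` in the place `i`), the derivative of `x` and the unit vectors `J z` generate; the last
`1 + card Z` of them are independent. -/
def T_NAV : Prop := ∀ (R k K : Type) [Field R] [Field k] [Field K] [CharZero K]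
  [Algebra k K] [Algebra R K] (n s : ℕ) (ι : Type) [Fintype ι] [DecidableEq ι] (e : ι → ℕ)
  (F : Tup ι K n) (D : Derivation k K K) (D' : Derivation R K K) (Z : Finset ι)
  (x : Fin (n + 1) → K), SysV e F D' → (∀ z, D' z = D z) → PtV Z F D' x →
  ∀ (B : Finset (Fin n)) (g : Fin n → B → K), Fr R x B g →
  ∀ (Q : Fin s → Tup ι K n) (θ : Fin (n + 1) → Fin s → Derivation R K K)
    (θ' : ι → Derivation R K K),
  (∀ i j a, cD (θ i j) (F a) = X i * Q j a) →
  (∀ i a, cD (θ' i) (F a) = if a = i then F a else 0) →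
  UV R F x (PQT x Q) = TZ R Z F x → ∀ J : Z → B, gJB F x g J ≠ 0 →
  ∃ (T : Finset ((Fin (n + 1) × Fin s) ⊕ ι)) (e0 : (T ⊕ Unit) ⊕ Z ≃ B ⊕ Fin s),
    ((bigV D x (fun c : T => Sum.elim (fun p => θ p.1 p.2) θ' c.1)
      (fun c : T => Sum.elim (fun p => p.1) (fun _ => 0) c.1)
      (fun c : T => Sum.elim (fun p => some p.2) (fun _ => none) c.1) J).submatrix e0 id).det ≠ 0

end Pool.Agent.H17.VS
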