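import Pool.Agent.H17.VS.Defs

/-!
# MP_70ba79_ag: targets of the board `vs_modules`, part D (height inequality)
-/

set_option autoImplicit false

namespace Pool.Agent.H17.VS

open MvPolynomial SC Pool.Agent.H27.LV Pool.Agent.H17.VG Pool.Agent.H17.CI

/-- NCV: local normal crossings. `A` is the set of the indices of the forms which vanish at the
reduction `z` of `x`. With an integral frame, some minor of the gradients has the exact order
(T_NCA for the reductions of `x / x_m`, `x_m` of maximal pole order, and of the frame; T_RES; if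
`x` has a pole then `z` is in the reduction of the frame because `D x` is in the tangent space). -/
def T_NCV : Prop := ∀ (R k K : Type) [Field R] [CharZero R] [Field k] [IsAlgClosed k] [CharZero k]
  [Field K] [Algebra R k] [Algebra k K] [Algebra R K] [IsScalarTower R k K]
  [Algebra.EssFiniteType k K], Algebra.trdeg k K = 1 → ∀ (n : ℕ) (ι : Type) [Fintype ι]
  (e : ι → ℕ) (c : (Σ i, Mon (n + 1) (e i + 1)) → k), AlgebraicIndependent R c →
  ∀ (D : Derivation k K K), D ≠ 0 → ∀ (x : Fin (n + 1) → K) (B0 : Finset (Fin n)), x 0 = 1 →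
  Gen R x B0 → ∀ (v : DV k K) (B : Finset (Fin n)) (g : Fin n → B → K), B.card = B0.card →
  Fr R x B g → (∀ a b, ge v 0 (g a b)) →
  (∀ i b, ge v (-(e i * poleOrder v x)) (grB (upT K (frmT c)) x g i b)) ∧
  ∃ (A : Finset ι) (J : A → B), Function.Injective J ∧ gJB (upT K (frmT c)) x g J ≠ 0 ∧
    v.ord (gJB (upT K (frmT c)) x g J) = -((∑ i ∈ A, e i : ℕ) * poleOrder v x) ∧
    ∀ i, i ∉ A → eval x (upT K (frmT c) i) ≠ 0 ∧
      v.ord (eval x (upT K (frmT c) i)) = -((e i + 1 : ℕ) * poleOrder v x)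

/-- RAT: two completions of the columns `M`, which are killed by `Φ`, to a square matrix -/
def T_RAT : Prop := ∀ (K : Type) [Field K] (ρ κ ζ : Type) [Fintype ρ] [DecidableEq ρ]
  [Fintype κ] [DecidableEq κ] [Fintype ζ] [DecidableEq ζ] (M : Matrix ρ κ K)
  (N N' : Matrix ρ ζ K) (Φ : Matrix ζ ρ K) (e0 : κ ⊕ ζ ≃ ρ), Φ * M = 0 →
  ((Matrix.fromCols M N).submatrix e0 id).det * (Φ * N').det =
    ((Matrix.fromCols M N').submatrix e0 id).det * (Φ * N).det

/-- DEV: T_DET for any columns `N` in the place of unit vectors (T_DET, T_RAT) -/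
def T_DEV : Prop := ∀ (k K : Type) [Field k] [Field K] [Algebra k K] (v : DV k K)
  (ρ κ ι : Type) [Fintype ρ] [DecidableEq ρ] [Fintype κ] [DecidableEq κ] [DecidableEq ι]
  (Z A : Finset ι) (M : Matrix ρ (κ ⊕ Unit) K) (N : Matrix ρ Z K) (J : Z → ρ) (J' : A → ρ)
  (g : ι → ρ → K) (e0 : (κ ⊕ Unit) ⊕ Z ≃ ρ) (p : ℕ) (ω : ℤ) (u : ι → ℤ) (γ : ℤ), Z ⊆ A →
  Function.Injective J → Function.Injective J' →
  (Matrix.of fun i i' : A => g i (J' i')).det ≠ 0 →
  v.ord (Matrix.of fun i i' : A => g i (J' i')).det = γ →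
  (Matrix.of fun i i' : Z => g i (J i')).det ≠ 0 →
  (∀ r c, ge v (-p) (M r (Sum.inl c))) → (∀ r, ge v (-p + ω) (M r (Sum.inr ()))) →
  (∀ i ∈ Z, ∀ c, ∑ r, g i r * M r c = 0) →
  (∀ i ∈ A, i ∉ Z → (∀ c, ge v (u i) (∑ r, g i r * M r (Sum.inl c))) ∧
    ge v (u i + ω) (∑ r, g i r * M r (Sum.inr ()))) →
  (Matrix.of fun i i' : Z => ∑ r, g i r * N r i').det ≠ 0 →
  ge v (v.ord (Matrix.of fun i i' : Z => ∑ r, g i r * N r i').det - γ + ω +
    ∑ i ∈ A \ Z, u i - ((Fintype.card ρ : ℤ) - A.card) * p)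
    ((Matrix.fromCols M N).submatrix e0 id).det

/-- DBV: the estimate of the determinant, at all places. Take the integral frame `B'`, `g'` of
T_BVV; the rows `B` are combinations with integral coefficients `g' a b` of the rows `B'` (the unit
columns `J z` become the columns of `g'' b' (J z)`, `g''` the derivatives with respect to `B`), and
use T_DEV for the rows `B'`, with T_NCV and T_ROW (for the columns with `j c = none`: T_ROW with
the family zero), after the local lifts. -/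
def T_DBV : Prop := ∀ (R k K : Type) [Field R] [CharZero R] [Field k] [IsAlgClosed k] [CharZero k]
  [Field K] [Algebra R k] [Algebra k K] [Algebra R K] [IsScalarTower R k K]
  [Algebra.EssFiniteType k K], Algebra.trdeg k K = 1 → ∀ (n s : ℕ) (ι : Type) [Fintype ι]
  [DecidableEq ι] (e : ι → ℕ) (c : (Σ i, Mon (n + 1) (e i + 1)) → k), AlgebraicIndependent R c →
  ∀ (D : Derivation k K K), D ≠ 0 → ∀ (Z : Finset ι) (x : Fin (n + 1) → K), x 0 = 1 →
  (∀ i, eval x (upT K (frmT c) i) = 0 ↔ i ∈ Z) →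
  ∀ (B : Finset (Fin n)) (g : Fin n → B → K), Gen R x B → Fr R x B g →
  ∀ (Q : Fin s → Tup ι k n) (κ : Type) [Fintype κ] [DecidableEq κ]
    (θ : κ → Derivation R K K) (l : κ → ι → K) (i : κ → Fin (n + 1)) (j : κ → Option (Fin s))
    (J : Z → B) (e0 : (κ ⊕ Unit) ⊕ Z ≃ B ⊕ Fin s),
  (∀ c, PresK k (θ c)) → (∀ c a, ∃ b : k, l c a = algebraMap k K b) →
  (∀ (c' : κ) (j' : Fin s), j c' = some j' → ∀ a,
    smb (upT K (frmT c)) (θ c') (l c') a = X (i c') * upT K (Q j') a) →
  (∀ c' : κ, j c' = none → ∀ a, smb (upT K (frmT c)) (θ c') (l c') a = 0) →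
  Function.Injective J → gJB (upT K (frmT c)) x g J ≠ 0 → ∀ v : DV k K,
  ge v (v.ord (gJB (upT K (frmT c)) x g J) +
      ∑ a ∈ Finset.univ \ Z, v.ord (eval x (upT K (frmT c) a)) +
      ((∑ a, (e a + 1) : ℕ) - Z.card : ℤ) * poleOrder v x - ((B.card : ℤ) + s - Z.card) *
        poleOrder v x - 1 + ordD v D)
    ((bigV D x θ i j J).submatrix e0 id).det ∧
  (poleOrder v x = 0 → (∀ a, a ∉ Z → v.ord (eval x (upT K (frmT c) a)) = 0) →
    ge v (v.ord (gJB (upT K (frmT c)) x g J) + ordD v D)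
      ((bigV D x θ i j J).submatrix e0 id).det)

/-- DTV: the height inequality -/
def T_DTV : Prop := ∀ (R k K : Type) [Field R] [CharZero R] [Field k] [IsAlgClosed k] [CharZero k]
  [Field K] [Algebra R k] [Algebra k K] [Algebra R K] [IsScalarTower R k K]
  [Algebra.EssFiniteType k K], Algebra.trdeg k K = 1 → ∀ (n : ℕ) (ι : Type) [Fintype ι]
  (e : ι → ℕ) (c : (Σ i, Mon (n + 1) (e i + 1)) → k), AlgebraicIndependent R c →
  Algebra.IsAlgebraic (IntermediateField.adjoin R (Set.range c)) k →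
  ∀ (D : Derivation k K K), D ≠ 0 → ∀ (Z : Finset ι) (x : Fin (n + 1) → K), x 0 = 1 →
  (∀ i, eval x (upT K (frmT c) i) = 0 ↔ i ∈ Z) →
  (∃ a, x a ∉ Set.range (algebraMap k K)) →
  ∀ B : Finset (Fin n), AlgebraicIndependent R (fun b : B => x b.1.succ) → Gen R x B →
  ∀ S : Finset (DV k K),
  (∀ v, v ∉ S → poleOrder v x = 0 ∧ ∀ i, i ∉ Z → v.ord (eval x (upT K (frmT c) i)) = 0) →
  (((∑ i, (e i + 1) : ℕ) : ℤ) - 2 * B.card + 1 + Z.card) * deg k x ≤ canDeg D + S.card

/-- TRU: the inequality over the field `k0`: second main theorem with truncation at level one for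
very general sections of a variety of dimension `r` -/
def T_TRU : Prop := ∀ (k0 k K : Type) [Field k0] [Field k] [IsAlgClosed k] [CharZero k]
  [Algebra k0 k] [Field K] [Algebra k K] [Algebra k0 K] [IsScalarTower k0 k K]
  [Algebra.EssFiniteType k K], Algebra.trdeg k K = 1 → ∀ (n r : ℕ) (ι : Type) [Fintype ι]
  (e : ι → ℕ) (c : (Σ i, Mon (n + 1) (e i + 1)) → k), AlgebraicIndependent k0 c →
  ∀ (D : Derivation k K K), D ≠ 0 → ∀ x : Fin (n + 1) → K, x 0 = 1 →
  (∀ J : Fin (r + 1) → Fin n, ¬ AlgebraicIndependent k0 fun j => x (J j).succ) →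
  (∃ a, x a ∉ Set.range (algebraMap k K)) → ∀ S : Finset (DV k K),
  (∀ v, v ∉ S → poleOrder v x = 0 ∧ ∀ i, eval x (upT K (frmT c) i) ≠ 0 →
    v.ord (eval x (upT K (frmT c) i)) = 0) →
  (((∑ i, (e i + 1) : ℕ) : ℤ) - 2 * r + 1) * deg k x ≤ canDeg D + S.card

end Pool.Agent.H17.VS
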