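import Pool.Agent.H17.VS.TargetsA
import Pool.Agent.H17.VS.TargetsB
import Pool.Agent.H17.VS.TargetsD
import Pool.Agent.H17.CI.DT

/-!
# MP_70ba79_ag: the height inequality (row DTV of the board `vs_modules`)
-/

set_option autoImplicit false

namespace Pool.Agent.H17.VS

open MvPolynomial SC Pool.Agent.H27.LV Pool.Agent.H17.VG Pool.Agent.H17.CI

theorem pf_DTV (hSY : T_SYV) (hTA : T_TAN) (hTZ : T_TZV) (hST : T_STV) (hNA : T_NAV)
    (hDB : T_DBV) (hSU : T_SU3) : T_DTV := by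
  classical
  intro R k K _ _ _ _ _ _ _ _ _ _ _ htr n ι _ e c hc hal D hD0 Z x hx0 hon hx B hB hgen S hS
  have hcK : CharZero K := charZero_of_injective_algebraMap (algebraMap k K).injective
  obtain ⟨D', hD', hsys, hrat⟩ := hSY R k K htr n ι e c hc hal D hD0
  obtain ⟨g, hg⟩ := hTA R K n x B hx0 hB hgen
  obtain ⟨F, hF⟩ : ∃ F : Tup ι K n, F = upT K (frmT c) := ⟨_, rfl⟩
  have hpt : PtV Z (upT K (frmT c)) D' x := by
    refine ⟨hx0, hon, ?_⟩
    intro h0
    obtain ⟨a, ha⟩ := hx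
    apply ha
    have h1 : D (x a) = 0 := by rw [← hD']; exact congrFun h0 a
    exact ker k K htr D hD0 _ h1
  obtain ⟨-, hfin, -, hgrad⟩ := hTZ R K n ι e (upT K (frmT c)) D' Z x hsys hpt B g hg
  obtain ⟨s, Q, hs, hUV⟩ := hST R k K n ι e (upT K (frmT c)) D' Z x hsys hpt B g hg
  obtain ⟨J, hJ⟩ := exists_J (fun i : Z => grB (upT K (frmT c)) x g i.1) hgrad
  have hJinj : Function.Injective J :=
    inj_of_det (fun i : Z => grB (upT K (frmT c)) x g i.1) J hJ
  have hJ' : gJB (upT K (frmT c)) x g J ≠ 0 := by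
    unfold gJB
    exact hJ
  -- rational derivations
  have hop : ∀ (i : Fin (n + 1)) (j : Fin s), ∃ θ : Derivation R K K, PresK k θ ∧
      ∀ a, cD θ (upT K (frmT c) a) = X i * upT K (frmT (Q j)) a := by
    intro i j
    obtain ⟨θ, h1, h2⟩ := hrat (fun a => X i * frmT (Q j) a) (by
      intro a
      have := (isHomogeneous_X k i).mul (frm_homog fun M => Q j ⟨a, M⟩)
      rw [Nat.add_comm (e a) 1]
      exact this)
    refine ⟨θ, h1, fun a => ?_⟩
    rw [h2]
    unfold upT up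
    rw [map_mul, map_X]
  have hop' : ∀ i : ι, ∃ θ : Derivation R K K, PresK k θ ∧
      ∀ a, cD θ (upT K (frmT c) a) = if a = i then upT K (frmT c) a else 0 := by
    intro i
    obtain ⟨θ, h1, h2⟩ := hrat (fun a => if a = i then frmT c a else 0) (by
      intro a
      by_cases h : a = i
      · simp only [h, if_true]
        exact frm_homog _
      · simp only [h, if_false]
        exact isHomogeneous_zero _ _ _)
    refine ⟨θ, h1, fun a => ?_⟩
    rw [h2]
    by_cases h : a = i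
    · simp only [upT, h, if_true]
    · simp only [upT, up, h, if_false, map_zero]
  choose θ hθ1 hθ2 using hop
  choose θ' hθ1' hθ2' using hop'
  obtain ⟨T, e0, hdet⟩ := hNA R k K n s ι e (upT K (frmT c)) D D' Z x hsys hD' hpt B g hg
    (fun j => upT K (frmT (Q j))) θ θ' hθ2 hθ2' hUV J hJ'
  obtain ⟨P, hP⟩ : ∃ P : K, P = ((bigV D x (fun c : T => Sum.elim (fun p => θ p.1 p.2) θ' c.1)
      (fun c : T => Sum.elim (fun p => p.1) (fun _ => 0) c.1)
      (fun c : T => Sum.elim (fun p => some p.2) (fun _ => none) c.1) J).submatrix e0 id).det :=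
    ⟨_, rfl⟩
  rw [← hP] at hdet
  have hBd := fun v => hDB R k K htr n s ι e c hc D hD0 Z x hx0 hon B g hgen hg
    (fun j => frmT (Q j)) T (fun c : T => Sum.elim (fun p => θ p.1 p.2) θ' c.1)
    (fun c : T => Sum.elim (fun _ => (0 : ι → K)) (fun i => Pi.single i (-1)) c.1)
    (fun c : T => Sum.elim (fun p => p.1) (fun _ => 0) c.1)
    (fun c : T => Sum.elim (fun p => some p.2) (fun _ => none) c.1) J e0
    (by
      rintro ⟨p | i, hp⟩
      · exact hθ1 _ _
      · exact hθ1' _)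
    (by
      rintro ⟨p | i, hp⟩ a
      · exact ⟨0, by simp⟩
      · by_cases h : a = i
        · refine ⟨-1, ?_⟩
          simp only [Sum.elim_inr, h, Pi.single_eq_same, map_neg, map_one]
        · refine ⟨0, ?_⟩
          simp only [Sum.elim_inr, Pi.single_eq_of_ne h, map_zero])
    (by
      rintro ⟨p | i, hp⟩ j' hj a
      · simp only [Sum.elim_inl, Option.some.injEq] at hj
        subst hj
        simp only [smb, Sum.elim_inl, Pi.zero_apply, C_0, zero_mul, add_zero]
        exact hθ2 _ _ _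
      · simp only [Sum.elim_inr, reduceCtorEq] at hj)
    (by
      rintro ⟨p | i, hp⟩ hj a
      · simp only [Sum.elim_inl, reduceCtorEq] at hj
      · simp only [smb, Sum.elim_inr]
        rw [hθ2']
        by_cases h : a = i
        · subst h
          simp
        · simp [h])
    hJinj hJ' v
  rw [← hP] at hBd
  obtain ⟨gg, hgg⟩ : ∃ gg : K, gg = gJB (upT K (frmT c)) x g J := ⟨_, rfl⟩
  have hg0 : gg ≠ 0 := by rw [hgg]; exact hJ'
  rw [← hgg] at hBd
  obtain ⟨u, hu⟩ : ∃ u : K, u = ∏ a ∈ Finset.univ \ Z, eval x (upT K (frmT c) a) := ⟨_, rfl⟩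
  have hu1 : ∀ a ∈ Finset.univ \ Z, eval x (upT K (frmT c) a) ≠ 0 := by
    intro a ha h0
    exact (Finset.mem_sdiff.1 ha).2 ((hon a).1 h0)
  have hu0 : u ≠ 0 := by
    rw [hu]
    exact Finset.prod_ne_zero_iff.2 hu1
  have huv : ∀ v : DV k K,
      v.ord u = ∑ a ∈ Finset.univ \ Z, v.ord (eval x (upT K (frmT c) a)) := by
    intro v
    rw [hu]
    exact v.ord_prod _ _ hu1
  have hS' : ∀ v, v ∉ S → v.ord u = 0 ∧ poleOrder v x = 0 := by
    intro v hv
    refine ⟨?_, (hS v hv).1⟩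
    rw [huv]
    refine Finset.sum_eq_zero fun a ha => ?_
    exact (hS v hv).2 a (Finset.mem_sdiff.1 ha).2
  have h1 := hSU k K htr n ((B.card : ℤ) + s - Z.card) (((∑ a, (e a + 1) : ℕ) : ℤ) - Z.card) D
    hD0 x u hu0 S hS' Unit (fun _ => P / gg) () (div_ne_zero hdet hg0)
    (fun v _ hv => ge_div hg0 ((hBd v).2 (hS v hv).1 (hS v hv).2) (by linarith))
    (fun v _ => ge_div hg0 (hBd v).1 (by rw [huv]; linarith))
  have h3 : (0 : ℤ) ≤ (deg k (fun _ : Unit => P / gg / (P / gg)) : ℤ) := Int.natCast_nonneg _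
  have h4 : (((∑ a, (e a + 1) : ℕ) : ℤ) - Z.card) - ((B.card : ℤ) + s - Z.card) =
      ((∑ i, (e i + 1) : ℕ) : ℤ) - B.card - s := by
    ring
  rw [h4] at h1
  have h5 : (0 : ℤ) ≤ (deg k x : ℤ) := Int.natCast_nonneg _
  have h6 : (s : ℤ) + 1 + Z.card ≤ B.card := by exact_mod_cast hs
  have h7 : (((∑ i, (e i + 1) : ℕ) : ℤ) - 2 * B.card + 1 + Z.card) * deg k x ≤
      (((∑ i, (e i + 1) : ℕ) : ℤ) - B.card - s) * deg k x :=
    mul_le_mul_of_nonneg_right (by linarith) h5
  linarith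

end Pool.Agent.H17.VS
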