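import Pool.Agent.H17.VS.TargetsA
import Pool.Agent.H17.VS.TargetsD
import Pool.Agent.H17.CI.DT

/-!
# MP_70ba79_ag: local normal crossings (row NCV of the board `vs_modules`)
-/

set_option autoImplicit false

namespace Pool.Agent.H17.VS

open MvPolynomial SC Pool.Agent.H27.LV Pool.Agent.H17.VG Pool.Agent.H17.CI
open Pool.Agent.H1.CI (Rd)

section

variable {k K : Type} [Field k] [Field K] [Algebra k K]

lemma rd_unique {v : DV k K} {w : K} {a b : k} (ha : Rd v w a) (hb : Rd v w b) : a = b := by
  by_contra hne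
  have h1 : ge v 1 (algebraMap k K (a - b)) := by
    have e1 : algebraMap k K (a - b) = (w - algebraMap k K b) + -(w - algebraMap k K a) := by
      rw [map_sub]
      ring
    rw [e1]
    refine hb.2.add ?_
    rcases ha.2 with h | h
    · left; rw [h, neg_zero]
    · right
      rw [v.ord_neg]
      exact h
  have h0 : algebraMap k K (a - b) ≠ 0 := by
    rw [Ne, map_eq_zero]
    exact sub_ne_zero.2 hne
  have h2 := h1.resolve_left h0
  rw [v.ord_base] at h2
  omega

lemma Fr.delta {R : Type} [Field R] [Algebra R K] {n : ℕ} {x : Fin (n + 1) → K}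
    {B : Finset (Fin n)} {g : Fin n → B → K} (h : Fr R x B g) (b b' : B) :
    g b.1 b' = if b = b' then 1 else 0 := by
  classical
  obtain ⟨θ, hθ⟩ := h.surj (Pi.single b' 1)
  have h1 := h.rel θ b.1
  rw [hθ b, Finset.sum_eq_single b'] at h1
  · rw [hθ b', Pi.single_eq_same, mul_one] at h1
    rw [← h1]
    by_cases hb : b = b'
    · rw [if_pos hb, hb, Pi.single_eq_same]
    · rw [if_neg hb, Pi.single_eq_of_ne hb]
  · intro b'' _ hb
    rw [hθ b'', Pi.single_eq_of_ne hb, mul_zero]
  · intro h2
    exact absurd (Finset.mem_univ _) h2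

end

theorem pf_NCV (hRE : T_RES) (hNC : T_NCA) : T_NCV := by
  classical
  intro R k K _ _ _ _ _ _ _ _ _ _ _ htr n ι _ e c hc D hD0 x B0 hx0 hgen v B g hBB hg hgi
  obtain ⟨p, hp⟩ : ∃ p : ℕ, p = poleOrder v x := ⟨_, rfl⟩
  obtain ⟨m, hm0, hm, hm'⟩ : ∃ m, x m ≠ 0 ∧ v.ord (x m) = -(p : ℤ) ∧ (p = 0 → m = 0) := by
    by_cases h : p = 0
    · refine ⟨0, by rw [hx0]; exact one_ne_zero, ?_, fun _ => rfl⟩
      rw [hx0, v.ord_one, h]
      simp
    · obtain ⟨m, h1, h2⟩ := Pool.Agent.H92.VG.exists_pole3 v x 0 hx0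
      exact ⟨m, h1, by rw [hp]; exact h2, fun h' => absurd h' h⟩
  rw [← hp]
  obtain ⟨y, hy⟩ : ∃ y : Fin (n + 1) → K, y = fun a => x a / x m := ⟨_, rfl⟩
  have hxy : x = fun a => x m * y a := by
    rw [hy]
    funext a
    rw [mul_div_cancel₀ _ hm0]
  have hy0 : ∀ a, ge v 0 (y a) := by
    intro a
    by_cases h0 : x a = 0
    · left
      rw [hy]
      simp [h0]
    · right
      rw [hy]
      have h1 : v.ord (x a) = v.ord (x a / x m) + v.ord (x m) := by
        rw [← v.ord_mul' (div_ne_zero h0 hm0) hm0, div_mul_cancel₀ _ hm0]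
      have h2 := npole_le v x a
      rw [← hp] at h2
      show 0 ≤ v.ord (x a / x m)
      linarith
  have hge0 : ∀ w : K, ge v 0 w → ∃ a : k, Rd v w a := by
    intro w hw
    obtain ⟨a, ha⟩ := (rat k K htr v).2 w (by
      rcases hw with h | h
      · rw [h, v.ord_zero]
      · exact h)
    exact ⟨a, hw, ha⟩
  choose z hz using fun a => hge0 (y a) (hy0 a)
  choose γ hγ using fun (a : Fin n) (b : B) => hge0 (g a b) (hgi a b)
  have hzm : z m = 1 := by
    refine rd_unique (hz m) ?_
    have h1 : y m = algebraMap k K 1 := by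
      rw [hy, map_one]
      exact div_self hm0
    rw [h1]
    exact Rd.const v 1
  have hγd : ∀ b b' : B, γ b.1 b' = if b = b' then 1 else 0 := by
    intro b b'
    refine rd_unique (hγ b.1 b') ?_
    have h1 : g b.1 b' = algebraMap k K (if b = b' then 1 else 0) := by
      rw [hg.delta b b']
      by_cases h : b = b'
      · rw [if_pos h, if_pos h, map_one]
      · rw [if_neg h, if_neg h, map_zero]
    rw [h1]
    exact Rd.const v _
  have hyalg : ∀ a, IsAlgebraic (IntermediateField.adjoin R (Set.range x)) (y a) := by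
    intro a
    have h1 : y a ∈ IntermediateField.adjoin R (Set.range x) := by
      rw [hy]
      exact div_mem (IntermediateField.subset_adjoin _ _ ⟨a, rfl⟩)
        (IntermediateField.subset_adjoin _ _ ⟨m, rfl⟩)
    exact isAlgebraic_algebraMap (⟨y a, h1⟩ : IntermediateField.adjoin R (Set.range x))
  -- relation at infinity
  have hinf : p ≠ 0 → z 0 = 0 ∧ ∀ a : Fin n, z a.succ = ∑ b, γ a b * z b.1.succ := by
    intro hp0
    have hoz : v.ord (x m) ≠ 0 := by
      rw [hm]
      omega
    obtain ⟨-, hdord, hdor⟩ := dor k K htr D hD0 v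
    obtain ⟨hDm0, hDm⟩ := hdor (x m) hoz
    refine ⟨rd_unique (hz 0) ⟨hy0 0, ?_⟩, ?_⟩
    · right
      rw [map_zero, sub_zero, hy]
      show 1 ≤ v.ord (x 0 / x m)
      rw [hx0, one_div, v.ord_inv, hm]
      omega
    · -- residues of the derivatives
      have hDy : ∀ a, ge v (ordD v D) (D (y a)) := by
        intro a
        rcases hy0 a with h | h
        · left
          rw [h, map_zero]
        · exact hdord.1 _ h
      have hres : ∀ a, Rd v (D (x a) / D (x m)) (z a) := by
        intro a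
        have h1 : D (x a) / D (x m) = y a + x m * D (y a) / D (x m) := by
          have h2 : x a = x m * y a := congrFun hxy a
          rw [h2, D.leibniz, smul_eq_mul, smul_eq_mul]
          field_simp
          ring
        have h2 : Rd v (x m * D (y a) / D (x m)) 0 := by
          have h3 : ge v 1 (x m * D (y a) / D (x m)) := by
            by_cases h0 : D (y a) = 0
            · left
              rw [h0, mul_zero, zero_div]
            · right
              rw [div_eq_mul_inv, v.ord_mul' (mul_ne_zero hm0 h0) (inv_ne_zero hDm0),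
                v.ord_mul' hm0 h0, v.ord_inv, hDm, hm]
              have := (hDy a).resolve_left h0
              omega
          refine ⟨h3.mono (by omega), ?_⟩
          rw [map_zero, sub_zero]
          exact h3
        rw [h1]
        have h4 := (hz a).add h2
        rwa [add_zero] at h4
      intro a
      refine rd_unique (hres a.succ) ?_
      obtain ⟨D', hD'⟩ : ∃ D' : Derivation R K K, ∀ w, D' w = D w :=
        ⟨D.restrictScalars R, fun w => rfl⟩
      have h1 := hg.rel D' a
      rw [hD'] at h1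
      have h2 : D (x a.succ) / D (x m) = ∑ b, g a b * (D (x b.1.succ) / D (x m)) := by
        rw [h1, Finset.sum_div]
        refine Finset.sum_congr rfl fun b _ => ?_
        rw [hD', mul_div_assoc]
      rw [h2]
      exact Rd.sum _ _ _ fun b _ => (hγ a b).mul (hres _)
  -- transcendence degree of the residues
  have hBpos : p ≠ 0 → 1 ≤ B.card := by
    intro hp0
    obtain ⟨h1, h2⟩ := hinf hp0
    by_contra hB
    have hB0 : B = ∅ := Finset.card_eq_zero.1 (by omega)
    have h3 : ∀ a, z a = 0 := by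
      intro a
      refine Fin.cases h1 (fun a => ?_) a
      rw [h2 a]
      refine Finset.sum_eq_zero fun b _ => ?_
      exact absurd (Finset.card_pos.2 ⟨b.1, b.2⟩) (by rw [hB0, Finset.card_empty]; omega)
    rw [h3 m] at hzm
    exact zero_ne_one hzm
  obtain ⟨N, hN1, hN2⟩ : ∃ N : ℕ, (p = 0 ∧ N = B.card ∨ p ≠ 0 ∧ N + 1 = B.card) ∧
      (B0.card ≤ N ∨ (B0.card ≤ N + 1 ∧ ∃ a, x a ≠ 0 ∧ v.ord (x a) ≠ 0)) := by
    by_cases hp0 : p = 0
    · exact ⟨B.card, Or.inl ⟨hp0, rfl⟩, Or.inl (by omega)⟩
    · have := hBpos hp0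
      exact ⟨B.card - 1, Or.inr ⟨hp0, by omega⟩, Or.inr ⟨by omega, m, hm0, by rw [hm]; omega⟩⟩
  obtain ⟨u, hu⟩ := hRE R k K v n x B0 hgen N hN2
  obtain ⟨A, hA⟩ : ∃ A : Finset ι, A = Finset.univ.filter fun i => eval z (frmT c i) = 0 :=
    ⟨_, rfl⟩
  have hli := hNC R k n N ι e c hc u z B γ (fun a => hu _ _ (hyalg a) (hz a))
    (fun a b => hu _ _ (hg.alg a b) (hγ a b)) hγd ⟨m, hzm⟩
    (by
      rcases hN1 with ⟨h1, h2⟩ | ⟨h1, h2⟩
      · left
        refine ⟨?_, h2⟩
        rw [← hm' h1]
        exact hzm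
      · exact Or.inr ⟨(hinf h1).1, h2, (hinf h1).2⟩)
    A (fun i hi => by
      rw [hA, Finset.mem_filter] at hi
      exact hi.2)
  obtain ⟨J, hJ⟩ := exists_J _ hli
  have hJinj : Function.Injective J := inj_of_det (fun (i : A) (b : B) =>
    ∑ a : Fin n, eval z (pderiv a.succ (frmT c i)) * γ a b) J hJ
  -- reduction of values
  have hred : ∀ G : MvPolynomial (Fin (n + 1)) k, Rd v (eval y (up K G)) (eval z G) :=
    fun G => Pool.Agent.H92.VG.eval_red v y z (fun i => by
      rcases hy0 i with h | h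
      · rw [h, v.ord_zero]
      · exact h) (fun i => (hz i).2) G
  have hscale : ∀ (G : MvPolynomial (Fin (n + 1)) k) (d : ℕ), G.IsHomogeneous d →
      eval x (up K G) = x m ^ d * eval y (up K G) := by
    intro G d hG
    have hG' : (up K G).IsHomogeneous d := hG.map _
    rw [← Pool.Agent.H92.VG.eval_scale hG' (x m) y, ← hxy]
  have hF : ∀ i, (frmT c i).IsHomogeneous (e i + 1) := fun i => frm_homog _
  have hder : ∀ i j, pderiv j (upT K (frmT c) i) = up K (pderiv j (frmT c i)) := by
    intro i j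
    show pderiv j (up K (frmT c i)) = _
    unfold up
    rw [pderiv_map]
  have hhom : ∀ i j, (pderiv j (frmT c i)).IsHomogeneous (e i) := by
    intro i j
    have h := (hF i).pderiv (i := j)
    rwa [Nat.add_sub_cancel] at h
  obtain ⟨W, hW⟩ : ∃ W : ι → B → K, W = fun i b =>
      ∑ a : Fin n, eval y (up K (pderiv a.succ (frmT c i))) * g a b := ⟨_, rfl⟩
  have hgrW : ∀ i b, grB (upT K (frmT c)) x g i b = x m ^ e i * W i b := by
    intro i b
    unfold grB
    rw [hW, Finset.mul_sum]
    refine Finset.sum_congr rfl fun a _ => ?_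
    rw [hder, hscale _ _ (hhom i _)]
    ring
  have hWr : ∀ i b, Rd v (W i b)
      (∑ a : Fin n, eval z (pderiv a.succ (frmT c i)) * γ a b) := by
    intro i b
    rw [hW]
    exact Rd.sum _ _ _ fun a _ => (hred _).mul (hγ a b)
  have hxpow : ∀ d : ℕ, v.ord (x m ^ d) = -((d : ℤ) * p) := by
    intro d
    rw [v.ord_pow, hm]
    ring
  have hxpow0 : ∀ d : ℕ, x m ^ d ≠ 0 := fun d => pow_ne_zero _ hm0
  constructor
  · intro i b
    rw [hgrW]
    have h2 : ge v (-(e i * p : ℤ)) (x m ^ e i) := Or.inr (hxpow _).ge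
    have h3 := h2.mul (hWr i b).1
    rwa [add_zero] at h3
  · obtain ⟨h1, h2⟩ := (Rd.det (v := v) (Matrix.of fun i i' : A => W i (J i'))
      (Matrix.of fun i i' : A => ∑ a : Fin n,
        eval z (pderiv a.succ (frmT c i)) * γ a (J i')) (fun i i' => hWr _ _)).unit hJ
    have hgJ : gJB (upT K (frmT c)) x g J = x m ^ (∑ i ∈ A, e i) *
        (Matrix.of fun i i' : A => W i (J i')).det := by
      have h3 : gJB (upT K (frmT c)) x g J = (Matrix.of fun i i' : A => x m ^ e i *
          (Matrix.of fun i i' : A => W i (J i')) i i').det := by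
        unfold gJB
        simp only [hgrW, Matrix.of_apply]
      rw [h3, Matrix.det_mul_column]
      congr 1
      rw [Finset.prod_pow_eq_pow_sum, Finset.sum_coe_sort A e]
    refine ⟨A, J, hJinj, ?_, ?_, ?_⟩
    · rw [hgJ]
      exact mul_ne_zero (hxpow0 _) h1
    · rw [hgJ, v.ord_mul' (hxpow0 _) h1, hxpow, h2, add_zero]
    · intro i hi
      have hi' : eval z (frmT c i) ≠ 0 := fun h => hi (by
        rw [hA]
        exact Finset.mem_filter.2 ⟨Finset.mem_univ _, h⟩)
      obtain ⟨h3, h4⟩ := (hred (frmT c i)).unit hi'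
      have h5 : eval x (upT K (frmT c) i) = x m ^ (e i + 1) * eval y (up K (frmT c i)) :=
        hscale _ _ (hF i)
      rw [h5]
      refine ⟨mul_ne_zero (hxpow0 _) h3, ?_⟩
      rw [v.ord_mul' (hxpow0 _) h3, hxpow, h4, add_zero]

end Pool.Agent.H17.VS
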