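import Pool.Agent.H17.VS.Defs
import Pool.Agent.H1.CI.GRT

/-!
# MP_70ba79_ag: targets of the board `vs_modules`, part A (field theory)
-/

set_option autoImplicit false

namespace Pool.Agent.H17.VS

open MvPolynomial SC Pool.Agent.H27.LV Pool.Agent.H17.VG Pool.Agent.H17.CI

/-- FDV: the field `R` -/
def T_FDV : Prop := ∀ (k0 k : Type) [Field k0] [Field k] [Algebra k0 k] (κ : Type) (c : κ → k),
  AlgebraicIndependent k0 c → ∃ R : IntermediateField k0 k, AlgebraicIndependent R c ∧
    Algebra.IsAlgebraic (IntermediateField.adjoin R (Set.range c)) k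

/-- DXV: derivations with given constant values on the coefficients which preserve `k` -/
def T_DXV : Prop := ∀ (R k K : Type) [Field R] [CharZero R] [Field k] [Algebra R k] [Field K]
  [Algebra k K] [Algebra R K] [IsScalarTower R k K] (κ : Type) (c : κ → k),
  AlgebraicIndependent R c →
  Algebra.IsAlgebraic (IntermediateField.adjoin R (Set.range c)) k →
  ∀ g : κ → k, ∃ θ : Derivation R K K, PresK k θ ∧
    ∀ M, θ (algebraMap k K (c M)) = algebraMap k K (g M)

/-- KDV: derivations which vanish on the coefficients are multiples of `D` -/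
def T_KDV : Prop := ∀ (R k K : Type) [Field R] [CharZero R] [Field k] [IsAlgClosed k]
  [Algebra R k] [Field K] [Algebra k K] [Algebra R K] [IsScalarTower R k K]
  [Algebra.EssFiniteType k K], Algebra.trdeg k K = 1 → ∀ (κ : Type) (c : κ → k),
  Algebra.IsAlgebraic (IntermediateField.adjoin R (Set.range c)) k →
  ∀ (D : Derivation k K K) (D' θ : Derivation R K K), D ≠ 0 → (∀ z, D' z = D z) →
  (∀ M, θ (algebraMap k K (c M)) = 0) → ∃ a : K, θ = a • D'

/-- SYV: the system of a generic family -/
def T_SYV : Prop := ∀ (R k K : Type) [Field R] [CharZero R] [Field k] [IsAlgClosed k]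
  [Algebra R k] [Field K] [Algebra k K] [Algebra R K] [IsScalarTower R k K]
  [Algebra.EssFiniteType k K], Algebra.trdeg k K = 1 → ∀ (n : ℕ) (ι : Type) [Fintype ι]
  (e : ι → ℕ) (c : (Σ i, Mon (n + 1) (e i + 1)) → k), AlgebraicIndependent R c →
  Algebra.IsAlgebraic (IntermediateField.adjoin R (Set.range c)) k →
  ∀ D : Derivation k K K, D ≠ 0 →
  ∃ D' : Derivation R K K, (∀ z, D' z = D z) ∧ SysV e (upT K (frmT c)) D' ∧
    ∀ G : Tup ι k n, (∀ i, (G i).IsHomogeneous (e i + 1)) →
      ∃ θ : Derivation R K K, PresK k θ ∧ ∀ i, cD θ (upT K (frmT c) i) = upT K G i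

/-- TRX: choice of coordinates, a maximal set of algebraically independent ones -/
def T_TRX : Prop := ∀ (R K : Type) [Field R] [Field K] [Algebra R K] (n r : ℕ)
  (x : Fin (n + 1) → K), x 0 = 1 →
  (∀ J : Fin (r + 1) → Fin n, ¬ AlgebraicIndependent R fun j => x (J j).succ) →
  ∃ B : Finset (Fin n), B.card ≤ r ∧ AlgebraicIndependent R (fun b : B => x b.1.succ) ∧
    Gen R x B

/-- TAN: the frame of such coordinates. With `∂_b` of T_G1: `g a b = ∂_b x_a`. -/
def T_TAN : Prop := ∀ (R K : Type) [Field R] [CharZero R] [Field K] [Algebra R K] (n : ℕ)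
  (x : Fin (n + 1) → K) (B : Finset (Fin n)), x 0 = 1 →
  AlgebraicIndependent R (fun b : B => x b.1.succ) → Gen R x B → ∃ g : Fin n → B → K, Fr R x B g

/-- BVV: at each place there is an integral frame (take a minor `g (J b) b'` of minimal order;
Cramer) -/
def T_BVV : Prop := ∀ (R k K : Type) [Field R] [Field k] [Field K] [Algebra k K] [Algebra R K]
  (n : ℕ) (x : Fin (n + 1) → K) (B : Finset (Fin n)) (g : Fin n → B → K), Fr R x B g →
  ∀ v : DV k K, ∃ (B' : Finset (Fin n)) (g' : Fin n → B' → K), B'.card = B.card ∧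
    Fr R x B' g' ∧ ∀ a b, ge v 0 (g' a b)

/-- RES: residues of elements algebraic over `R (x)` have transcendence degree at most
`card B`, and at most `card B - 1` if some coordinate has not order zero -/
def T_RES : Prop := ∀ (R k K : Type) [Field R] [Field k] [Field K] [Algebra R k] [Algebra k K]
  [Algebra R K] [IsScalarTower R k K] (v : DV k K) (n : ℕ) (x : Fin (n + 1) → K)
  (B : Finset (Fin n)), Gen R x B → ∀ N : ℕ,
  (B.card ≤ N ∨ (B.card ≤ N + 1 ∧ ∃ a, x a ≠ 0 ∧ v.ord (x a) ≠ 0)) →
  ∃ u : Fin N → k, ∀ (f : K) (a : k),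
    IsAlgebraic (IntermediateField.adjoin R (Set.range x)) f → Pool.Agent.H1.CI.Rd v f a →
    IsAlgebraic (IntermediateField.adjoin R (Set.range u)) a

/-- LCV: linear equations for algebraically independent elements. Derivations of `k` over `R`
which vanish on the `u j` (a subspace of codimension at most `card ν` in the space of all values
on `c`) preserve the equations. -/
def T_LCV : Prop := ∀ (R k : Type) [Field R] [CharZero R] [Field k] [Algebra R k] (κ : Type)
  [Fintype κ] (c : κ → k), AlgebraicIndependent R c → ∀ (ν : Type) [Fintype ν] (u : ν → k)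
  (η : Type) [Fintype η] (a : η → κ → k),
  (∀ j M, IsAlgebraic (IntermediateField.adjoin R (Set.range u)) (a j M)) →
  (∀ j, ∑ M, a j M * c M = 0) → LinearIndependent k a → Fintype.card η ≤ Fintype.card ν

/-- Coefficients of linear equations for families of forms `G`: `G_i (z) = 0` for `i` in `A`, and
`∑ λ_i (∂ G_i / ∂ w_b) (z) = 0` for the vectors `w b`. -/
noncomputable def eqc {k : Type} [Field k] {n : ℕ} {ι β : Type} {e : ι → ℕ} {A : Finset ι}
    (z : Fin (n + 1) → k) (w : β → Fin (n + 1) → k) (lam : A → k) :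
    A ⊕ β → (Σ i, Mon (n + 1) (e i + 1)) → k :=
  letI := Classical.decEq ι
  fun r M => match r with
    | Sum.inl i => if M.1 = i.1 then eval z (mono k M.2.1) else 0
    | Sum.inr b => if h : M.1 ∈ A then
        lam ⟨M.1, h⟩ * ∑ a, eval z (pderiv a (mono k M.2.1)) * w b a else 0

/-- NCB: these equations are independent, if some `λ_i` is `1`, the `w b` are independent and some
coordinate is zero on all `w b`, but not on `z`. Test with the monomials `X_m ^ e X_a`
(`z m = 1`): `α z_a + w_a + e w_m z_a = 0` for all `a`, where `w` is a combination of the `w b`. -/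
def T_NCB : Prop := ∀ (k : Type) [Field k] (n : ℕ) (ι : Type) (e : ι → ℕ) (A : Finset ι)
  (z : Fin (n + 1) → k) (β : Type) [Fintype β] (w : β → Fin (n + 1) → k) (lam : A → k) (i0 : A),
  (∃ m, z m = 1) → LinearIndependent k w → (∃ q, z q ≠ 0 ∧ ∀ b, w b q = 0) → lam i0 = 1 →
  LinearIndependent k (eqc (e := e) z w lam)

/-- NCA: normal crossings at a point `z` of a limit of tangent spaces (spanned by the vectors
`(0, g _ b)`). If `∑ λ_i ∂ F_i (z) w = 0` for all `w` in the tangent space, `λ_(i0) = 1`, then the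
equations `F_i (z) = 0`, `i` in `A`, and these for the basis vectors `w` (if `z 0 = 0`: without
one basis vector `b` with `z b ≠ 0`) are independent (T_NCB) linear equations for the coefficients,
over the field generated by `u` and the other `λ_i`; this contradicts T_LCV. -/
def T_NCA : Prop := ∀ (R k : Type) [Field R] [CharZero R] [Field k] [Algebra R k] (n N : ℕ)
  (ι : Type) [Fintype ι] (e : ι → ℕ) (c : (Σ i, Mon (n + 1) (e i + 1)) → k),
  AlgebraicIndependent R c → ∀ (u : Fin N → k) (z : Fin (n + 1) → k) (B : Finset (Fin n))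
  (g : Fin n → B → k), (∀ a, IsAlgebraic (IntermediateField.adjoin R (Set.range u)) (z a)) →
  (∀ a b, IsAlgebraic (IntermediateField.adjoin R (Set.range u)) (g a b)) →
  (∀ b b' : B, g b.1 b' = if b = b' then 1 else 0) → (∃ m, z m = 1) →
  ((z 0 = 1 ∧ N = B.card) ∨ (z 0 = 0 ∧ N + 1 = B.card ∧
    ∀ a : Fin n, z a.succ = ∑ b, g a b * z b.1.succ)) →
  ∀ A : Finset ι, (∀ i ∈ A, eval z (frmT c i) = 0) →
  LinearIndependent k fun i : A => fun b : B =>
    ∑ a : Fin n, eval z (pderiv a.succ (frmT c i)) * g a b

end Pool.Agent.H17.VS
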