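import Pool.Agent.H17.VS.TargetsF
import Pool.Agent.H17.VS.TargetsD
import Pool.Agent.H17.VS.TargetsA
import Pool.Agent.H64.VS.PTV
import Pool.Agent.H52.CI.DZT

/-!
# MP_70ba79_ag: very general complete intersections and covers over arbitrary varieties

The final theorem with equations `f_i = 0`, `i` in `Z`, in addition.
-/

set_option autoImplicit false

namespace Pool.Agent.H17.VS

open MvPolynomial SC Pool.Agent.H27.LV Pool.Agent.H17.VG Pool.Agent.H17.CI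

/-- Equations of `X`: those of `Y`, `f_i (y) = 0` for `i` in `Z`, and for the other `i`
`x_i ^ (μ i) = f_i (y)` if `μ i > 0` and `x_i f_i (y) = 1` if `μ i = 0` (multiplicity
infinity). -/
noncomputable def eqsW {k0 k : Type} [Field k0] [Field k] [Algebra k0 k] {n : ℕ} {ι : Type}
    {e : ι → ℕ} (Y : Set (MvPolynomial (Fin n) k0)) (c : (Σ i, Mon (n + 1) (e i + 1)) → k)
    (Z : Finset ι) (μ : ι → ℕ) : Set (MvPolynomial (Fin n ⊕ {i // i ∉ Z}) k) :=
  {g | (∃ q ∈ Y, g = rename Sum.inl (map (algebraMap k0 k) q)) ∨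
    (∃ i ∈ Z, g = rename Sum.inl (deh (frmT c i))) ∨
    ∃ i : {i // i ∉ Z}, g = if μ i.1 = 0 then rename Sum.inl (deh (frmT c i.1)) * X (Sum.inr i) - 1
      else X (Sum.inr i) ^ μ i.1 - rename Sum.inl (deh (frmT c i.1))}

/-- TRW: the truncated inequality on `F_i = 0`, `i` in `Z0` -/
def T_TRW : Prop := ∀ (k0 k K : Type) [Field k0] [Field k] [IsAlgClosed k] [CharZero k]
  [Algebra k0 k] [Field K] [Algebra k K] [Algebra k0 K] [IsScalarTower k0 k K]
  [Algebra.EssFiniteType k K], Algebra.trdeg k K = 1 → ∀ (n r : ℕ) (ι : Type) [Fintype ι]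
  (e : ι → ℕ) (c : (Σ i, Mon (n + 1) (e i + 1)) → k), AlgebraicIndependent k0 c →
  ∀ (D : Derivation k K K), D ≠ 0 → ∀ x : Fin (n + 1) → K, x 0 = 1 →
  (∀ J : Fin (r + 1) → Fin n, ¬ AlgebraicIndependent k0 fun j => x (J j).succ) →
  (∃ a, x a ∉ Set.range (algebraMap k K)) → ∀ Z0 : Finset ι,
  (∀ i ∈ Z0, eval x (upT K (frmT c) i) = 0) → ∀ S : Finset (DV k K),
  (∀ v, v ∉ S → poleOrder v x = 0 ∧ ∀ i, eval x (upT K (frmT c) i) ≠ 0 →
    v.ord (eval x (upT K (frmT c) i)) = 0) →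
  (((∑ i, (e i + 1) : ℕ) : ℤ) - 2 * r + 1 + Z0.card) * deg k x ≤ canDeg D + S.card

theorem pf_TRW (hFD : T_FDV) (hTR : T_TRX) (hDT : T_DTV) : T_TRW := by
  classical
  intro k0 k K _ _ _ _ _ _ _ _ _ _ htr n r ι _ e c hc D hD0 x hx0 hdim hx Z0 hZ0 S hS
  have hcK : CharZero K := charZero_of_injective_algebraMap (algebraMap k K).injective
  obtain ⟨R, hR1, hR2⟩ := hFD k0 k _ c hc
  have hcR : CharZero R := (algebraMap R k).charZero
  have : IsScalarTower k0 R K := IsScalarTower.of_algebraMap_eq fun a => by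
    rw [IsScalarTower.algebraMap_apply k0 k K]
    rfl
  obtain ⟨B, hBr, hB, hgen⟩ := hTR R K n r x hx0 (fun J hJ => hdim J
    (hJ.restrictScalars (algebraMap k0 R).injective))
  obtain ⟨Z, hZ⟩ : ∃ Z : Finset ι, Z = Finset.univ.filter fun i =>
      eval x (upT K (frmT c) i) = 0 := ⟨_, rfl⟩
  have hon : ∀ i, eval x (upT K (frmT c) i) = 0 ↔ i ∈ Z := by
    intro i
    rw [hZ, Finset.mem_filter]
    simp
  have h1 := hDT R k K htr n ι e c hR1 hR2 D hD0 Z x hx0 hon hx B hB hgen S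
    (fun v hv => ⟨(hS v hv).1, fun i hi => (hS v hv).2 i fun h => hi ((hon i).1 h)⟩)
  have h5 : (0 : ℤ) ≤ (deg k x : ℤ) := Int.natCast_nonneg _
  have h6 : (B.card : ℤ) ≤ r := by exact_mod_cast hBr
  have h8 : (Z0.card : ℤ) ≤ Z.card := by
    exact_mod_cast Finset.card_le_card fun i hi => (hon i).1 (hZ0 i hi)
  have h7 : (((∑ i, (e i + 1) : ℕ) : ℤ) - 2 * r + 1 + Z0.card) * deg k x ≤
      (((∑ i, (e i + 1) : ℕ) : ℤ) - 2 * B.card + 1 + Z.card) * deg k x :=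
    mul_le_mul_of_nonneg_right (by linarith) h5
  linarith

/-- MAW: the inequality with multiplicities on `F_i = 0`, `i` in `Z` -/
def T_MAW : Prop := ∀ (k0 k K : Type) [Field k0] [Field k] [IsAlgClosed k] [CharZero k]
  [Algebra k0 k] [Field K] [Algebra k K] [Algebra k0 K] [IsScalarTower k0 k K]
  [Algebra.EssFiniteType k K], Algebra.trdeg k K = 1 → ∀ (n r : ℕ) (ι : Type) [Fintype ι]
  [DecidableEq ι] (e μ : ι → ℕ) (c : (Σ i, Mon (n + 1) (e i + 1)) → k),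
  AlgebraicIndependent k0 c →
  ∀ (D : Derivation k K K), D ≠ 0 → ∀ x : Fin (n + 1) → K, x 0 = 1 →
  (∀ J : Fin (r + 1) → Fin n, ¬ AlgebraicIndependent k0 fun j => x (J j).succ) →
  (∃ a, x a ∉ Set.range (algebraMap k K)) → ∀ Z : Finset ι,
  (∀ i ∈ Z, eval x (upT K (frmT c) i) = 0) → ∀ S : Finset (DV k K),
  (∀ v, v ∉ S → poleOrder v x = 0 ∧ ∀ i, eval x (upT K (frmT c) i) ≠ 0 →
    (μ i = 0 → v.ord (eval x (upT K (frmT c) i)) = 0) ∧
    (v.ord (eval x (upT K (frmT c) i)) ≠ 0 → (μ i : ℤ) ≤ v.ord (eval x (upT K (frmT c) i)))) →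
  (∑ i ∈ Z, ((e i : ℚ) + 1) + ∑ i ∈ Finset.univ \ Z, ((e i : ℚ) + 1) * (1 - (μ i : ℚ)⁻¹) -
    (2 * r - 1 - Z.card)) * deg k x ≤ ((canDeg D + S.card : ℤ) : ℚ)

theorem pf_MAW (hTR : T_TRW) (hNZ : T_NZR) : T_MAW := by
  classical
  intro k0 k K _ _ _ _ _ _ _ _ _ _ htr n r ι _ _ e μ c hc D hD x hx0 hdim hxk Z hZ S hS
  have hF : ∀ i, (frmT c i).IsHomogeneous (e i + 1) := fun i => frm_homog _
  have hfin : ∀ i, eval x (upT K (frmT c) i) ≠ 0 →
      {v : DV k K | v.ord (eval x (upT K (frmT c) i)) ≠ 0}.Finite := fun i hi =>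
    ((hNZ k K htr n (e i + 1) (frmT c i) (hF i) x hx0).2 hi).1
  let V : ι → Finset (DV k K) := fun i =>
    (if h : eval x (upT K (frmT c) i) ≠ 0 then (hfin i h).toFinset else ∅).filter fun v => v ∉ S
  have hV : ∀ i v, v ∈ V i → eval x (upT K (frmT c) i) ≠ 0 ∧
      v.ord (eval x (upT K (frmT c) i)) ≠ 0 ∧ v ∉ S := by
    intro i v hv
    obtain ⟨h1, h2⟩ := Finset.mem_filter.1 hv
    by_cases h : eval x (upT K (frmT c) i) ≠ 0
    · rw [dif_pos h] at h1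
      exact ⟨h, (Set.Finite.mem_toFinset _).1 h1, h2⟩
    · rw [dif_neg h] at h1
      exact absurd h1 (Finset.notMem_empty _)
  have hVZ : ∀ i ∈ Z, V i = ∅ := by
    intro i hi
    refine Finset.eq_empty_of_forall_notMem fun v hv => (hV i v hv).1 (hZ i hi)
  have hcard : ∀ i, ((V i).card : ℚ) ≤ ((e i : ℚ) + 1) * (μ i : ℚ)⁻¹ * deg k x := by
    intro i
    by_cases hVe : V i = ∅
    · rw [hVe, Finset.card_empty, Nat.cast_zero]
      positivity
    · obtain ⟨v0, hv0⟩ := Finset.nonempty_iff_ne_empty.2 hVe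
      obtain ⟨h1, h2, h3⟩ := hV i v0 hv0
      have hμ : μ i ≠ 0 := fun h => h2 (((hS v0 h3).2 i h1).1 h)
      have h4 := ((hNZ k K htr n (e i + 1) (frmT c i) (hF i) x hx0).2 h1).2 (μ i) (V i)
        (fun v hv => by
          obtain ⟨_, h6, h7⟩ := hV i v hv
          exact ((hS v h7).2 i h1).2 h6)
      have h5 : ((μ i : ℚ)) * (V i).card ≤ ((e i : ℚ) + 1) * deg k x := by exact_mod_cast h4
      have hμ' : (0 : ℚ) < μ i := by exact_mod_cast Nat.pos_of_ne_zero hμ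
      calc ((V i).card : ℚ) = (μ i : ℚ)⁻¹ * ((μ i : ℚ) * (V i).card) := by
            rw [← mul_assoc, inv_mul_cancel₀ hμ'.ne', one_mul]
        _ ≤ (μ i : ℚ)⁻¹ * (((e i : ℚ) + 1) * deg k x) := by gcongr
        _ = _ := by ring
  have hmain := hTR k0 k K htr n r ι e c hc D hD x hx0 hdim hxk Z hZ
    (S ∪ Finset.univ.biUnion V) (by
    intro v hv
    rw [Finset.mem_union, not_or] at hv
    refine ⟨(hS v hv.1).1, fun i hi => ?_⟩
    by_contra hne
    apply hv.2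
    rw [Finset.mem_biUnion]
    refine ⟨i, Finset.mem_univ _, Finset.mem_filter.2 ⟨?_, hv.1⟩⟩
    rw [dif_pos hi]
    exact (Set.Finite.mem_toFinset _).2 hne)
  have hS' : ((S ∪ Finset.univ.biUnion V).card : ℚ) ≤ S.card + ∑ i, ((V i).card : ℚ) := by
    have h1 := Finset.card_union_le S (Finset.univ.biUnion V)
    have h2 : (Finset.univ.biUnion V).card ≤ ∑ i, (V i).card := Finset.card_biUnion_le
    have h3 : (S ∪ Finset.univ.biUnion V).card ≤ S.card + ∑ i, (V i).card := by omega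
    exact_mod_cast h3
  have hmainQ : ((∑ i, ((e i : ℚ) + 1)) - 2 * r + 1 + Z.card) * deg k x ≤
      (canDeg D : ℚ) + ((S ∪ Finset.univ.biUnion V).card : ℚ) := by exact_mod_cast hmain
  have hsum : ∑ i, ((V i).card : ℚ) ≤
      (∑ i ∈ Finset.univ \ Z, ((e i : ℚ) + 1) * (μ i : ℚ)⁻¹) * deg k x := by
    have h1 : ∑ i, ((V i).card : ℚ) = ∑ i ∈ Finset.univ \ Z, ((V i).card : ℚ) := by
      rw [← Finset.sum_sdiff (Finset.subset_univ Z)]
      have h2 : ∑ i ∈ Z, ((V i).card : ℚ) = 0 :=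
        Finset.sum_eq_zero fun i hi => by rw [hVZ i hi]; simp
      rw [h2, add_zero]
    rw [h1, Finset.sum_mul]
    exact Finset.sum_le_sum fun i _ => hcard i
  have e1 : ∑ i ∈ Z, ((e i : ℚ) + 1) +
      ∑ i ∈ Finset.univ \ Z, ((e i : ℚ) + 1) * (1 - (μ i : ℚ)⁻¹) =
      (∑ i, ((e i : ℚ) + 1)) - ∑ i ∈ Finset.univ \ Z, ((e i : ℚ) + 1) * (μ i : ℚ)⁻¹ := by
    rw [← Finset.sum_sdiff (Finset.subset_univ Z) (f := fun i => (e i : ℚ) + 1)]
    have h2 : ∑ i ∈ Finset.univ \ Z, ((e i : ℚ) + 1) * (1 - (μ i : ℚ)⁻¹) =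
        ∑ i ∈ Finset.univ \ Z, ((e i : ℚ) + 1) -
          ∑ i ∈ Finset.univ \ Z, ((e i : ℚ) + 1) * (μ i : ℚ)⁻¹ := by
      rw [← Finset.sum_sub_distrib]
      exact Finset.sum_congr rfl fun i _ => by ring
    rw [h2]
    ring
  rw [e1]
  push_cast
  nlinarith

/-- points of `X` in terms of `x = (1, y)` -/
theorem points {k0 k K : Type} [Field k0] [Field k] [Field K] [Algebra k0 k] [Algebra k K]
    [Algebra k0 K] [IsScalarTower k0 k K] {n : ℕ} {ι : Type} {e : ι → ℕ}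
    (Y : Set (MvPolynomial (Fin n) k0)) (c : (Σ i, Mon (n + 1) (e i + 1)) → k) (Z : Finset ι)
    (μ : ι → ℕ) (z : Fin n ⊕ {i // i ∉ Z} → K) : (∀ g ∈ eqsW Y c Z μ, aeval z g = 0) ↔
    (∀ q ∈ Y, aeval (fun a => z (Sum.inl a)) q = 0) ∧
    (∀ i ∈ Z, eval (Fin.cons 1 fun a => z (Sum.inl a) : Fin (n + 1) → K)
      (upT K (frmT c) i) = 0) ∧
    ∀ i : {i // i ∉ Z}, (μ i.1 = 0 → z (Sum.inr i) *
      eval (Fin.cons 1 fun a => z (Sum.inl a) : Fin (n + 1) → K) (upT K (frmT c) i.1) = 1) ∧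
    (μ i.1 ≠ 0 → z (Sum.inr i) ^ μ i.1 =
      eval (Fin.cons 1 fun a => z (Sum.inl a) : Fin (n + 1) → K) (upT K (frmT c) i.1)) := by
  have hY : ∀ q : MvPolynomial (Fin n) k0,
      aeval z (rename Sum.inl (map (algebraMap k0 k) q) :
        MvPolynomial (Fin n ⊕ {i // i ∉ Z}) k) = aeval (fun a => z (Sum.inl a)) q := by
    intro q
    rw [aeval_rename, aeval_map_algebraMap]
    rfl
  have hE : ∀ i, aeval z (rename Sum.inl (deh (frmT c i)) :
      MvPolynomial (Fin n ⊕ {i // i ∉ Z}) k) =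
      eval (Fin.cons 1 fun a => z (Sum.inl a) : Fin (n + 1) → K) (upT K (frmT c) i) :=
    fun i => Pool.Agent.H64.VS.PTV.aeval_deh (frmT c i) z
  constructor
  · intro h
    refine ⟨fun q hq => ?_, fun i hi => ?_, fun i => ⟨fun hi => ?_, fun hi => ?_⟩⟩
    · rw [← hY]
      exact h _ (Or.inl ⟨q, hq, rfl⟩)
    · rw [← hE]
      exact h _ (Or.inr (Or.inl ⟨i, hi, rfl⟩))
    · have h1 := h (rename Sum.inl (deh (frmT c i.1)) * X (Sum.inr i) - 1)
        (Or.inr (Or.inr ⟨i, by rw [if_pos hi]⟩))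
      rw [map_sub, map_mul, map_one, aeval_X, hE, sub_eq_zero] at h1
      rw [mul_comm]
      exact h1
    · have h1 := h (X (Sum.inr i) ^ μ i.1 - rename Sum.inl (deh (frmT c i.1)))
        (Or.inr (Or.inr ⟨i, by rw [if_neg hi]⟩))
      rw [map_sub, map_pow, aeval_X, hE, sub_eq_zero] at h1
      exact h1
  · rintro ⟨h1, h3, h2⟩ g (⟨q, hq, rfl⟩ | ⟨i, hi, rfl⟩ | ⟨i, rfl⟩)
    · rw [hY]
      exact h1 q hq
    · rw [hE]
      exact h3 i hi
    · by_cases hi : μ i.1 = 0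
      · rw [if_pos hi, map_sub, map_mul, map_one, aeval_X, hE, sub_eq_zero, mul_comm]
        exact (h2 i).1 hi
      · rw [if_neg hi, map_sub, map_pow, aeval_X, hE, sub_eq_zero]
        exact (h2 i).2 hi

/-- a part of the coordinates has smaller degree -/
theorem deg_part {k K : Type} [Field k] [IsAlgClosed k] [CharZero k] [Field K] [Algebra k K]
    [Algebra.EssFiniteType k K] (htr : Algebra.trdeg k K = 1) {σ τ : Type} [Fintype σ]
    [Fintype τ] (z : σ → K) (z' : τ → K) (h : ∀ j, ∃ j', z j = z' j') :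
    deg k z ≤ deg k z' := by
  classical
  unfold deg
  have f1 : (Function.support fun v : DV k K => poleOrder v z).Finite :=
    (pfi k K htr _ z).subset fun v hv => by simpa using hv
  have f2 : (Function.support fun v : DV k K => poleOrder v z').Finite :=
    (pfi k K htr _ z').subset fun v hv => by simpa using hv
  rw [finsum_eq_sum_of_support_subset (s := f1.toFinset ∪ f2.toFinset) _ (by
      intro v hv
      rw [Finset.coe_union, Set.Finite.coe_toFinset]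
      exact Or.inl hv),
    finsum_eq_sum_of_support_subset (s := f1.toFinset ∪ f2.toFinset) _ (by
      intro v hv
      rw [Finset.coe_union, Set.Finite.coe_toFinset, Set.Finite.coe_toFinset]
      exact Or.inr hv)]
  refine Finset.sum_le_sum fun v _ => ?_
  refine poleOrder_le v z _ fun j => ?_
  obtain ⟨j', hj'⟩ := h j
  rw [hj']
  exact npole_le v z' j'

/-- VSW: Q1 for very general complete intersections and covers over arbitrary affine varieties.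
The constant `A` does not depend on `k0`, `k`, `n`, `Y`, `c`. -/
def T_VSW : Prop := ∀ (r : ℕ) (ι : Type) [Fintype ι] [DecidableEq ι] (e μ : ι → ℕ)
  (Z : Finset ι),
  2 * (r : ℚ) - 1 - Z.card < ∑ i ∈ Z, ((e i : ℚ) + 1) +
    ∑ i ∈ Finset.univ \ Z, ((e i : ℚ) + 1) * (1 - (μ i : ℚ)⁻¹) →
  ∃ A : ℕ, ∀ (k0 k : Type) [Field k0] [Field k] [IsAlgClosed k] [CharZero k] [Algebra k0 k]
  (n : ℕ) (Y : Set (MvPolynomial (Fin n) k0)) (c : (Σ i, Mon (n + 1) (e i + 1)) → k),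
  DimV Y r → AlgebraicIndependent k0 c →
  (∀ (K : Type) [Field K] [Algebra k K] [Algebra.EssFiniteType k K], Algebra.trdeg k K = 1 →
    ∀ (S : Finset (DV k K)) (z : Fin n ⊕ {i // i ∉ Z} → K),
    (∀ p ∈ eqsW Y c Z μ, aeval z p = 0) →
    (∀ v, v ∉ S → ∀ j, 0 ≤ v.ord (z j)) → (∃ j, z j ∉ Set.range (algebraMap k K)) →
    ∀ D : Derivation k K K, D ≠ 0 →
    (∑ i ∈ Z, ((e i : ℚ) + 1) + ∑ i ∈ Finset.univ \ Z, ((e i : ℚ) + 1) * (1 - (μ i : ℚ)⁻¹) -
      (2 * r - 1 - Z.card)) * deg k (fun a => z (Sum.inl a)) ≤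
      ((canDeg D + S.card : ℤ) : ℚ)) ∧
  DegreeBound k (eqsW Y c Z μ) 1 (fun χ => A * χ)

theorem pf_VSW (hMA : T_MAW) (hDZ : T_DZV) : T_VSW := by
  classical
  intro r ι _ _ e μ Z hpos
  obtain ⟨ε, hε⟩ : ∃ ε : ℚ, ε = ∑ i ∈ Z, ((e i : ℚ) + 1) +
      ∑ i ∈ Finset.univ \ Z, ((e i : ℚ) + 1) * (1 - (μ i : ℚ)⁻¹) - (2 * r - 1 - Z.card) :=
    ⟨_, rfl⟩
  have hε0 : 0 < ε := by rw [hε]; linarith
  obtain ⟨C1, hC1⟩ : ∃ C1 : ℕ, C1 = 1 + ∑ i, (e i + 1) := ⟨_, rfl⟩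
  refine ⟨⌈(C1 : ℚ) / ε⌉₊, ?_⟩
  intro k0 k _ _ _ _ _ n Y c hY hc
  have key : ∀ (K : Type) [Field K] [Algebra k K] [Algebra.EssFiniteType k K],
      Algebra.trdeg k K = 1 → ∀ (S : Finset (DV k K)) (z : Fin n ⊕ {i // i ∉ Z} → K),
      (∀ p ∈ eqsW Y c Z μ, aeval z p = 0) → (∀ v, v ∉ S → ∀ j, 0 ≤ v.ord (z j)) →
      (∃ j, z j ∉ Set.range (algebraMap k K)) → ∀ D : Derivation k K K, D ≠ 0 →
      ε * deg k (fun a => z (Sum.inl a)) ≤ ((canDeg D + S.card : ℤ) : ℚ) ∧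
      deg k z ≤ C1 * deg k (fun a => z (Sum.inl a)) := by
    intro K _ _ _ htr S z hz hreg hnc D hD0
    let _ : Algebra k0 K := ((algebraMap k K).comp (algebraMap k0 k)).toAlgebra
    have : IsScalarTower k0 k K := IsScalarTower.of_algebraMap_eq fun _ => rfl
    obtain ⟨h1, h3, h2⟩ := (points Y c Z μ z).1 hz
    obtain ⟨x, hx⟩ : ∃ x : Fin (n + 1) → K, x = Fin.cons 1 (fun a => z (Sum.inl a)) := ⟨_, rfl⟩
    rw [← hx] at h2 h3
    obtain ⟨z', hz'⟩ : ∃ z' : Fin n ⊕ ι → K, z' = Sum.elim (fun a => z (Sum.inl a))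
        (fun i => if h : i ∉ Z then z (Sum.inr ⟨i, h⟩) else 0) := ⟨_, rfl⟩
    obtain ⟨μ', hμ'⟩ : ∃ μ' : ι → ℕ, μ' = fun i => if i ∈ Z then 1 else μ i := ⟨_, rfl⟩
    have hzz : ∀ a, z' (Sum.inl a) = z (Sum.inl a) := fun a => by rw [hz']; rfl
    have hzi : ∀ i (h : i ∉ Z), z' (Sum.inr i) = z (Sum.inr ⟨i, h⟩) := fun i h => by
      rw [hz']
      exact dif_pos h
    have hz0 : ∀ i ∈ Z, z' (Sum.inr i) = 0 := fun i h => by
      rw [hz']
      exact dif_neg (not_not.2 h)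
    obtain ⟨hd1, hd2, hnc', hv⟩ := hDZ k K htr n ι e c μ' z' x (by
      rw [hx]
      simp only [hzz]) (by
      intro i
      by_cases hi : i ∈ Z
      · have h4 : μ' i = 1 := by rw [hμ']; exact if_pos hi
        rw [h4, hz0 i hi, h3 i hi]
        exact ⟨fun h => absurd h one_ne_zero, fun _ => pow_one 0⟩
      · have h4 : μ' i = μ i := by rw [hμ']; exact if_neg hi
        rw [h4, hzi i hi]
        exact h2 ⟨i, hi⟩)
    simp only [hzz] at hd1
    have hm := hMA k0 k K htr n r ι e μ c hc D hD0 x (by rw [hx]; rfl)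
      (fun J hJ => hY K (fun a => z (Sum.inl a)) h1 J (by
        have h3 : (fun j => x (J j).succ) = fun j => z (Sum.inl (J j)) := by
          rw [hx]
          rfl
        rw [← h3]
        exact hJ))
      (hnc' (by
        obtain ⟨j, hj⟩ := hnc
        rcases j with a | ⟨i, hi⟩
        · exact ⟨Sum.inl a, by rw [hzz]; exact hj⟩
        · exact ⟨Sum.inr i, by rw [hzi i hi]; exact hj⟩)) Z h3 S (fun v hvS => by
        obtain ⟨h5, h6⟩ := hv v (by
          rintro (a | i)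
          · rw [hzz]
            exact hreg v hvS _
          · by_cases hi : i ∈ Z
            · rw [hz0 i hi, v.ord_zero]
            · rw [hzi i hi]
              exact hreg v hvS _)
        refine ⟨h5, fun i hi => ?_⟩
        have h7 : i ∉ Z := fun h => hi (h3 i h)
        have h8 : μ' i = μ i := by rw [hμ']; exact if_neg h7
        have h9 := h6 i hi
        rwa [h8] at h9)
    rw [hd1]
    refine ⟨?_, ?_⟩
    · rw [hε]
      exact hm
    · rw [hC1]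
      refine (deg_part htr z z' fun j => ?_).trans hd2
      rcases j with a | ⟨i, hi⟩
      · exact ⟨Sum.inl a, (hzz a).symm⟩
      · exact ⟨Sum.inr i, (hzi i hi).symm⟩
  refine ⟨?_, ?_⟩
  · intro K _ _ _ htr S z hz hreg hnc D hD0
    rw [← hε]
    exact (key K htr S z hz hreg hnc D hD0).1
  · intro K _ _ _ htr S z hz hreg hnc _ D hD0
    obtain ⟨h1, h2⟩ := key K htr S z hz hreg hnc D hD0
    have h3 : ((deg k z : ℤ) : ℚ) ≤ ((⌈(C1 : ℚ) / ε⌉₊ * (canDeg D + S.card) : ℤ) : ℚ) := by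
      have h4 : (deg k z : ℚ) ≤ C1 * deg k (fun a => z (Sum.inl a)) := by exact_mod_cast h2
      have h5 : (0 : ℚ) ≤ ((canDeg D + S.card : ℤ) : ℚ) :=
        le_trans (mul_nonneg hε0.le (Nat.cast_nonneg _)) h1
      have h6 : (C1 : ℚ) * deg k (fun a => z (Sum.inl a)) ≤
          (C1 : ℚ) / ε * ((canDeg D + S.card : ℤ) : ℚ) := by
        rw [div_mul_eq_mul_div, le_div_iff₀ hε0]
        have := mul_le_mul_of_nonneg_left h1 (Nat.cast_nonneg (α := ℚ) C1)
        linarith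
      have h7 : (C1 : ℚ) / ε * ((canDeg D + S.card : ℤ) : ℚ) ≤
          (⌈(C1 : ℚ) / ε⌉₊ : ℚ) * ((canDeg D + S.card : ℤ) : ℚ) :=
        mul_le_mul_of_nonneg_right (Nat.le_ceil _) h5
      push_cast at h7 h6 ⊢
      linarith
    exact_mod_cast h3

end Pool.Agent.H17.VS
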