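import Pool.Agent.H66.VG.G1
import Pool.Agent.H97.VG.CD
import Pool.Agent.H97.VG.EV
import Pool.Agent.H77.VG.IP
import Pool.Agent.H17.VG.LL
import Pool.Agent.H30.VG.D0
import Pool.Agent.H52.CI.ROW
import Pool.Agent.H64.CI.DET
import Pool.Agent.H99.CI.SU3
import Pool.Agent.H17.VS.DTV
import Pool.Agent.H17.VS.NCV
import Pool.Agent.H17.VS.VSW
import Pool.Agent.H64.VS.BVV
import Pool.Agent.H35.VS.DBV
import Pool.Agent.H61.VS.DEV
import Pool.Agent.H50.VS.DXV
import Pool.Agent.H70.VS.DZV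
import Pool.Agent.H33.VS.IPV
import Pool.Agent.H34.VS.KDV
import Pool.Agent.H46.VS.LCV
import Pool.Agent.H46.VS.NCA
import Pool.Agent.H46.VS.NCB
import Pool.Agent.H61.VS.RAT
import Pool.Agent.H61.VS.RES
import Pool.Agent.H34.VS.SMV
import Pool.Agent.H49.VS.STV
import Pool.Agent.H60.VS.SYV
import Pool.Agent.H1.VS.UVM
import Pool.Agent.H26.VS.NZR
import Pool.Agent.H26.VS.ONV
import Pool.Agent.H26.VS.TRX
import Pool.Agent.H69.VS.FDV
import Pool.Agent.H86.VS.TZV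
import Pool.Agent.H96.VS.NAV
import Pool.Agent.H96.VS.TAN

/-!
# MP_70ba79_ag: very general sections of arbitrary varieties, assembly of all modules
-/

set_option autoImplicit false

namespace Pool.Agent.H17.VS

open Pool.Agent.H17.VG Pool.Agent.H17.CI

/-- the main theorem, all modules of the board `vs_modules` together, in the form for moving
points of the base -/
theorem maw_all : T_MAW := by
  have hG1 : T_G1 := Pool.Agent.H66.VG.g1
  have hCD : T_CD := Pool.Agent.H97.VG.cd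
  have hEV : T_EV := Pool.Agent.H97.VG.ev
  have hIPG : T_IP := Pool.Agent.H77.VG.ip
  have hLL : T_LL := Pool.Agent.H17.VG.ll Pool.Agent.H30.VG.d0
  have hSM : T_SMV := Pool.Agent.H34.VS.pf_SMV hCD hEV
  have hUV : T_UVM := Pool.Agent.H1.VS.pf_UVM hSM
  have hIP : T_IPV := Pool.Agent.H33.VS.pf_IPV hSM hIPG
  have hSY : T_SYV := Pool.Agent.H60.VS.pf_SYV (Pool.Agent.H50.VS.pf_DXV hG1)
    Pool.Agent.H34.VS.pf_KDV hCD
  have hNC : T_NCV := pf_NCV Pool.Agent.H61.VS.pf_RES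
    (Pool.Agent.H46.VS.pf_NCA (Pool.Agent.H46.VS.pf_LCV hG1) Pool.Agent.H46.VS.pf_NCB)
  have hDB : T_DBV := Pool.Agent.H35.VS.pf_DBV Pool.Agent.H64.VS.pf_BVV hNC
    (Pool.Agent.H52.CI.pf_ROW hLL hEV)
    (Pool.Agent.H61.VS.pf_DEV Pool.Agent.H64.CI.pf_DET Pool.Agent.H61.VS.pf_RAT)
  have hTZ : T_TZV := Pool.Agent.H86.VS.pf_TZV hSM hUV
  have hNA : T_NAV := Pool.Agent.H96.VS.pf_NAV hUV hTZ
  have hON : T_ONV := Pool.Agent.H26.VS.pf_ONV hSM hUV hIP
  have hST : T_STV := Pool.Agent.H49.VS.pf_STV hON hTZ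
  have hDT : T_DTV := pf_DTV hSY (Pool.Agent.H96.VS.pf_TAN hG1) hTZ hST hNA hDB
    Pool.Agent.H99.CI.pf_SU3
  exact pf_MAW (pf_TRW Pool.Agent.H69.VS.pf_FDV Pool.Agent.H26.VS.pf_TRX hDT)
    Pool.Agent.H26.VS.pf_NZR

/-- the main theorem, all modules of the board `vs_modules` together -/
theorem vsw_all : T_VSW := pf_VSW maw_all Pool.Agent.H70.VS.pf_DZV

end Pool.Agent.H17.VS
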