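import Pool.Agent.H17.CI.TargetsD
import Pool.Agent.H17.CI.TargetsF
import Pool.Agent.H27.LV.Final

/-!
# MP_70ba79_ag: very general sections of arbitrary varieties

Common definitions of the modules of the board `vs_modules`. `F i`, `i` in a finite set `ι`, are
forms of degrees `e i + 1` in `n + 1` variables whose coefficients are algebraically independent
over `R`; `x` is a point over a function field `K` over `k`, with `x 0 = 1`. There are no linear
changes of coordinates here: `x` is on a fixed variety over `R`, and the operators are the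
derivations `θ` of `K` over `R`.
-/

set_option autoImplicit false

namespace Pool.Agent.H17.VS

open MvPolynomial SC Pool.Agent.H27.LV Pool.Agent.H17.VG Pool.Agent.H17.CI

section Op

variable {R K : Type} [Field R] [Field K] [Algebra R K] {n : ℕ} {ι : Type}

/-- `F` with its derivations: all families of forms are symbols, and the only derivations with
symbol zero are the multiples of `D` -/
structure SysV (e : ι → ℕ) (F : Tup ι K n) (D : Derivation R K K) : Prop where
  homog : ∀ i, (F i).IsHomogeneous (e i + 1)
  base : ∀ i, cD D (F i) = 0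
  surj : ∀ G : Tup ι K n, (∀ i, (G i).IsHomogeneous (e i + 1)) →
    ∃ θ : Derivation R K K, ∀ i, cD θ (F i) = G i
  ker : ∀ θ : Derivation R K K, (∀ i, cD θ (F i) = 0) → ∃ c : K, θ = c • D

/-- symbol of the derivation `θ` with the scalings `l` -/
noncomputable def smb (F : Tup ι K n) (θ : Derivation R K K) (l : ι → K) : Tup ι K n :=
  fun i => cD θ (F i) + C (l i) * F i

/-- the tangent space over `R` of the point `x`: its velocities -/
def TV (R : Type) [Field R] [Algebra R K] (x : Fin (n + 1) → K) :
    Submodule K (Fin (n + 1) → K) where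
  carrier := {w | ∃ θ : Derivation R K K, w = fun i => θ (x i)}
  add_mem' := by
    rintro _ _ ⟨θ, rfl⟩ ⟨θ', rfl⟩
    exact ⟨θ + θ', rfl⟩
  zero_mem' := ⟨0, rfl⟩
  smul_mem' := by
    rintro c _ ⟨θ, rfl⟩
    exact ⟨c • θ, rfl⟩

/-- the velocities which are tangent to `F i = 0`, `i` in `Z` -/
noncomputable def TZ (R : Type) [Field R] [Algebra R K] (Z : Finset ι) (F : Tup ι K n)
    (x : Fin (n + 1) → K) : Submodule K (Fin (n + 1) → K) := TV R x ⊓ TxT Z F x

/-- velocities of the derivations with symbol in `W` (with any scalings) -/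
noncomputable def UV (R : Type) [Field R] [Algebra R K] (F : Tup ι K n)
    (x : Fin (n + 1) → K) (W : Submodule K (Tup ι K n)) : Submodule K (Fin (n + 1) → K) :=
  Submodule.span K {w | ∃ (θ : Derivation R K K) (l : ι → K), smb F θ l ∈ W ∧
    w = fun i => θ (x i)}

/-- `x` is a point of `F i = 0`, `i` in `Z`, and of no other `F i = 0`, and not constant -/
structure PtV (Z : Finset ι) (F : Tup ι K n) (D : Derivation R K K) (x : Fin (n + 1) → K) :
    Prop where
  one : x 0 = 1
  on : ∀ i, eval x (F i) = 0 ↔ i ∈ Z
  dx : (fun i => D (x i)) ≠ 0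

/-- frame: `g a b` is the derivative of `x a` with respect to `x b`, `b` in `B` -/
structure Fr (R : Type) [Field R] [Algebra R K] (x : Fin (n + 1) → K) (B : Finset (Fin n))
    (g : Fin n → B → K) : Prop where
  alg : ∀ a b, IsAlgebraic (IntermediateField.adjoin R (Set.range x)) (g a b)
  rel : ∀ (θ : Derivation R K K) (a : Fin n), θ (x a.succ) = ∑ b, g a b * θ (x b.1.succ)
  surj : ∀ w : B → K, ∃ θ : Derivation R K K, ∀ b : B, θ (x b.1.succ) = w b

/-- the coordinates in `B` generate `R (x)` up to algebraic elements -/
def Gen (R : Type) [Field R] [Algebra R K] (x : Fin (n + 1) → K) (B : Finset (Fin n)) : Prop :=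
  ∀ a, IsAlgebraic (IntermediateField.adjoin R (Set.range fun b : B => x b.1.succ)) (x a)

/-- gradients in the coordinates `B` -/
noncomputable def grB {B : Finset (Fin n)} (F : Tup ι K n) (x : Fin (n + 1) → K)
    (g : Fin n → B → K) (i : ι) (b : B) : K :=
  ∑ a : Fin n, eval x (pderiv a.succ (F i)) * g a b

/-- minor of the matrix of the gradients -/
noncomputable def gJB {A : Finset ι} {B : Finset (Fin n)} (F : Tup ι K n) (x : Fin (n + 1) → K)
    (g : Fin n → B → K) (J : A → B) : K :=
  letI := Classical.decEq ι
  (Matrix.of fun i i' : A => grB F x g i (J i')).det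

end Op

section Rational

variable {R k K : Type} [Field R] [Field k] [Field K] [Algebra k K] [Algebra R K] {n : ℕ}
  {ι : Type}

/-- The matrix of the height inequality. Rows: the coordinates in `B`, and one row for each of
the families `Q j`. Columns: for each `c` a derivation `θ c`, with symbol `X_(i c) Q_(j c)` or
(`j c = none`) with symbol zero, then the derivative of `x`, then for each equation of the variety
a unit vector. -/
noncomputable def bigV {κ : Type} {s : ℕ} {Z : Finset ι} {B : Finset (Fin n)}
    (D : Derivation k K K) (x : Fin (n + 1) → K) (θ : κ → Derivation R K K)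
    (i : κ → Fin (n + 1)) (j : κ → Option (Fin s)) (J : Z → B) :
    Matrix (B ⊕ Fin s) ((κ ⊕ Unit) ⊕ Z) K :=
  Matrix.of fun r c => match r, c with
    | Sum.inl a, Sum.inl (Sum.inl c) => θ c (x a.1.succ)
    | Sum.inr b, Sum.inl (Sum.inl c) => if j c = some b then x (i c) else 0
    | Sum.inl a, Sum.inl (Sum.inr _) => D (x a.1.succ)
    | Sum.inr _, Sum.inl (Sum.inr _) => 0
    | Sum.inl a, Sum.inr z => if J z = a then 1 else 0
    | Sum.inr _, Sum.inr _ => 0

end Rational

/-- the variety with the equations `Y` has dimension at most `r`: at its points over any field no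
`r + 1` coordinates are algebraically independent -/
def DimV {k0 : Type} [Field k0] {n : ℕ} (Y : Set (MvPolynomial (Fin n) k0)) (r : ℕ) : Prop :=
  ∀ (L : Type) [Field L] [Algebra k0 L] (y : Fin n → L), (∀ q ∈ Y, aeval y q = 0) →
    ∀ J : Fin (r + 1) → Fin n, ¬ AlgebraicIndependent k0 fun j => y (J j)

/-- equations of the cover `X` of `Y` branched along the sections `f_i = 0`: those of `Y`,
`x_i ^ (μ i) = f_i (y)` if `μ i > 0` and `x_i f_i (y) = 1` if `μ i = 0` (multiplicity infinity) -/
noncomputable def eqsV {k0 k : Type} [Field k0] [Field k] [Algebra k0 k] {n : ℕ} {ι : Type}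
    {e : ι → ℕ} (Y : Set (MvPolynomial (Fin n) k0)) (c : (Σ i, Mon (n + 1) (e i + 1)) → k)
    (μ : ι → ℕ) : Set (MvPolynomial (Fin n ⊕ ι) k) :=
  {g | (∃ q ∈ Y, g = rename Sum.inl (map (algebraMap k0 k) q)) ∨
    ∃ i, g = if μ i = 0 then rename Sum.inl (deh (frmT c i)) * X (Sum.inr i) - 1
      else X (Sum.inr i) ^ μ i - rename Sum.inl (deh (frmT c i))}

end Pool.Agent.H17.VS
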