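import Pool.Agent.H17.VS.TargetsA
import Pool.Agent.H17.VS.TargetsD

/-!
# MP_70ba79_ag: the inequality over the field `k0` (row TRU of the board `vs_modules`)
-/

set_option autoImplicit false

namespace Pool.Agent.H17.VS

open MvPolynomial SC Pool.Agent.H27.LV Pool.Agent.H17.VG Pool.Agent.H17.CI

theorem pf_TRU (hFD : T_FDV) (hTR : T_TRX) (hDT : T_DTV) : T_TRU := by
  classical
  intro k0 k K _ _ _ _ _ _ _ _ _ _ htr n r ι _ e c hc D hD0 x hx0 hdim hx S hS
  have hcK : CharZero K := charZero_of_injective_algebraMap (algebraMap k K).injective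
  obtain ⟨R, hR1, hR2⟩ := hFD k0 k _ c hc
  have hcR : CharZero R := (algebraMap R k).charZero
  have : IsScalarTower k0 R K := IsScalarTower.of_algebraMap_eq fun a => by
    rw [IsScalarTower.algebraMap_apply k0 k K]
    rfl
  obtain ⟨B, hBr, hB, hgen⟩ := hTR R K n r x hx0 (fun J hJ => hdim J
    (hJ.restrictScalars (algebraMap k0 R).injective))
  obtain ⟨Z, hZ⟩ : ∃ Z : Finset ι, Z = Finset.univ.filter fun i =>
      eval x (upT K (frmT c) i) = 0 := ⟨_, rfl⟩
  have hon : ∀ i, eval x (upT K (frmT c) i) = 0 ↔ i ∈ Z := by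
    intro i
    rw [hZ, Finset.mem_filter]
    simp
  have h1 := hDT R k K htr n ι e c hR1 hR2 D hD0 Z x hx0 hon hx B hB hgen S
    (fun v hv => ⟨(hS v hv).1, fun i hi => (hS v hv).2 i fun h => hi ((hon i).1 h)⟩)
  have h5 : (0 : ℤ) ≤ (deg k x : ℤ) := Int.natCast_nonneg _
  have h6 : (B.card : ℤ) ≤ r := by exact_mod_cast hBr
  have h8 : (0 : ℤ) ≤ Z.card := Int.natCast_nonneg _
  have h7 : (((∑ i, (e i + 1) : ℕ) : ℤ) - 2 * r + 1) * deg k x ≤
      (((∑ i, (e i + 1) : ℕ) : ℤ) - 2 * B.card + 1 + Z.card) * deg k x :=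
    mul_le_mul_of_nonneg_right (by linarith) h5
  linarith

end Pool.Agent.H17.VS
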