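import Pool.Agent.H17.VS.Defs

/-!
# MP_70ba79_ag: targets of the board `vs_modules`, part F (final theorem)
-/

set_option autoImplicit false

namespace Pool.Agent.H17.VS

open MvPolynomial SC Pool.Agent.H27.LV Pool.Agent.H17.VG Pool.Agent.H17.CI

/-- NZR: number of zeros of a form at a point -/
def T_NZR : Prop := ∀ (k K : Type) [Field k] [IsAlgClosed k] [CharZero k] [Field K] [Algebra k K]
  [Algebra.EssFiniteType k K], Algebra.trdeg k K = 1 → ∀ (n d : ℕ)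
  (F : MvPolynomial (Fin (n + 1)) k), F.IsHomogeneous d → ∀ x : Fin (n + 1) → K, x 0 = 1 →
  {v : DV k K | poleOrder v x ≠ 0}.Finite ∧
  (eval x (up K F) ≠ 0 → {v : DV k K | v.ord (eval x (up K F)) ≠ 0}.Finite ∧
    ∀ (m : ℕ) (V : Finset (DV k K)), (∀ v ∈ V, (m : ℤ) ≤ v.ord (eval x (up K F))) →
      m * V.card ≤ d * deg k x)

/-- PTV: points of the cover in terms of `x = (1, y)` -/
def T_PTV : Prop := ∀ (k0 k K : Type) [Field k0] [Field k] [Field K] [Algebra k0 k] [Algebra k K]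
  [Algebra k0 K] [IsScalarTower k0 k K] (n : ℕ) (ι : Type) (e : ι → ℕ)
  (Y : Set (MvPolynomial (Fin n) k0)) (c : (Σ i, Mon (n + 1) (e i + 1)) → k) (μ : ι → ℕ)
  (z : Fin n ⊕ ι → K), (∀ g ∈ eqsV Y c μ, aeval z g = 0) ↔
  (∀ q ∈ Y, aeval (fun a => z (Sum.inl a)) q = 0) ∧
  ∀ i, (μ i = 0 → z (Sum.inr i) *
      eval (Fin.cons 1 fun a => z (Sum.inl a) : Fin (n + 1) → K) (upT K (frmT c) i) = 1) ∧
    (μ i ≠ 0 → z (Sum.inr i) ^ μ i =
      eval (Fin.cons 1 fun a => z (Sum.inl a) : Fin (n + 1) → K) (upT K (frmT c) i))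

/-- DZV: degrees, regularity and constants in terms of `x = (1, y)` -/
def T_DZV : Prop := ∀ (k K : Type) [Field k] [IsAlgClosed k] [CharZero k] [Field K] [Algebra k K]
  [Algebra.EssFiniteType k K], Algebra.trdeg k K = 1 → ∀ (n : ℕ) (ι : Type) [Fintype ι]
  (e : ι → ℕ) (c : (Σ i, Mon (n + 1) (e i + 1)) → k) (μ : ι → ℕ) (z : Fin n ⊕ ι → K)
  (x : Fin (n + 1) → K), x = Fin.cons 1 (fun a => z (Sum.inl a)) →
  (∀ i, (μ i = 0 → z (Sum.inr i) * eval x (upT K (frmT c) i) = 1) ∧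
    (μ i ≠ 0 → z (Sum.inr i) ^ μ i = eval x (upT K (frmT c) i))) →
  deg k (fun a => z (Sum.inl a)) = deg k x ∧
  deg k z ≤ (1 + ∑ i, (e i + 1)) * deg k x ∧
  ((∃ j, z j ∉ Set.range (algebraMap k K)) → ∃ j, x j ∉ Set.range (algebraMap k K)) ∧
  ∀ v : DV k K, (∀ j, 0 ≤ v.ord (z j)) → poleOrder v x = 0 ∧
    ∀ i, eval x (upT K (frmT c) i) ≠ 0 → (μ i = 0 → v.ord (eval x (upT K (frmT c) i)) = 0) ∧
      (v.ord (eval x (upT K (frmT c) i)) ≠ 0 → (μ i : ℤ) ≤ v.ord (eval x (upT K (frmT c) i)))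

/-- MAV: the main inequality, with multiplicities -/
def T_MAV : Prop := ∀ (k0 k K : Type) [Field k0] [Field k] [IsAlgClosed k] [CharZero k]
  [Algebra k0 k] [Field K] [Algebra k K] [Algebra k0 K] [IsScalarTower k0 k K]
  [Algebra.EssFiniteType k K], Algebra.trdeg k K = 1 → ∀ (n r : ℕ) (ι : Type) [Fintype ι]
  (e μ : ι → ℕ) (c : (Σ i, Mon (n + 1) (e i + 1)) → k), AlgebraicIndependent k0 c →
  ∀ (D : Derivation k K K), D ≠ 0 → ∀ x : Fin (n + 1) → K, x 0 = 1 →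
  (∀ J : Fin (r + 1) → Fin n, ¬ AlgebraicIndependent k0 fun j => x (J j).succ) →
  (∃ a, x a ∉ Set.range (algebraMap k K)) → ∀ S : Finset (DV k K),
  (∀ v, v ∉ S → poleOrder v x = 0 ∧ ∀ i, eval x (upT K (frmT c) i) ≠ 0 →
    (μ i = 0 → v.ord (eval x (upT K (frmT c) i)) = 0) ∧
    (v.ord (eval x (upT K (frmT c) i)) ≠ 0 → (μ i : ℤ) ≤ v.ord (eval x (upT K (frmT c) i)))) →
  (∑ i, ((e i : ℚ) + 1) * (1 - (μ i : ℚ)⁻¹) - (2 * r - 1)) * deg k x ≤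
    ((canDeg D + S.card : ℤ) : ℚ)

/-- VSF: Q1 for covers of arbitrary affine varieties branched along very general sections. The
constant `A` does not depend on `k0`, `k`, `n`, `Y`, `c`. -/
def T_VSF : Prop := ∀ (r : ℕ) (ι : Type) [Fintype ι] (e μ : ι → ℕ),
  2 * (r : ℚ) - 1 < ∑ i, ((e i : ℚ) + 1) * (1 - (μ i : ℚ)⁻¹) →
  ∃ A : ℕ, ∀ (k0 k : Type) [Field k0] [Field k] [IsAlgClosed k] [CharZero k] [Algebra k0 k]
  (n : ℕ) (Y : Set (MvPolynomial (Fin n) k0)) (c : (Σ i, Mon (n + 1) (e i + 1)) → k),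
  DimV Y r → AlgebraicIndependent k0 c →
  (∀ (K : Type) [Field K] [Algebra k K] [Algebra.EssFiniteType k K], Algebra.trdeg k K = 1 →
    ∀ (S : Finset (DV k K)) (z : Fin n ⊕ ι → K), (∀ p ∈ eqsV Y c μ, aeval z p = 0) →
    (∀ v, v ∉ S → ∀ j, 0 ≤ v.ord (z j)) → (∃ j, z j ∉ Set.range (algebraMap k K)) →
    ∀ D : Derivation k K K, D ≠ 0 →
    (∑ i, ((e i : ℚ) + 1) * (1 - (μ i : ℚ)⁻¹) - (2 * r - 1)) * deg k (fun a => z (Sum.inl a)) ≤
      ((canDeg D + S.card : ℤ) : ℚ)) ∧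
  DegreeBound k (eqsV Y c μ) 1 (fun χ => A * χ)

end Pool.Agent.H17.VS
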