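import Pool.Agent.H17.VS.TargetsF

/-!
# MP_70ba79_ag: Q1 for covers branched along very general sections (row VSF of the board
`vs_modules`)
-/

set_option autoImplicit false

namespace Pool.Agent.H17.VS

open MvPolynomial SC Pool.Agent.H27.LV Pool.Agent.H17.VG Pool.Agent.H17.CI

theorem pf_VSF (hMA : T_MAV) (hPT : T_PTV) (hDZ : T_DZV) : T_VSF := by
  classical
  intro r ι _ e μ hpos
  obtain ⟨ε, hε⟩ : ∃ ε : ℚ, ε = ∑ i, ((e i : ℚ) + 1) * (1 - (μ i : ℚ)⁻¹) - (2 * r - 1) :=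
    ⟨_, rfl⟩
  have hε0 : 0 < ε := by rw [hε]; linarith
  obtain ⟨C1, hC1⟩ : ∃ C1 : ℕ, C1 = 1 + ∑ i, (e i + 1) := ⟨_, rfl⟩
  refine ⟨⌈(C1 : ℚ) / ε⌉₊, ?_⟩
  intro k0 k _ _ _ _ _ n Y c hY hc
  have key : ∀ (K : Type) [Field K] [Algebra k K] [Algebra.EssFiniteType k K],
      Algebra.trdeg k K = 1 → ∀ (S : Finset (DV k K)) (z : Fin n ⊕ ι → K),
      (∀ p ∈ eqsV Y c μ, aeval z p = 0) → (∀ v, v ∉ S → ∀ j, 0 ≤ v.ord (z j)) →
      (∃ j, z j ∉ Set.range (algebraMap k K)) → ∀ D : Derivation k K K, D ≠ 0 →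
      ε * deg k (fun a => z (Sum.inl a)) ≤ ((canDeg D + S.card : ℤ) : ℚ) ∧
      deg k z ≤ C1 * deg k (fun a => z (Sum.inl a)) := by
    intro K _ _ _ htr S z hz hreg hnc D hD0
    let _ : Algebra k0 K := ((algebraMap k K).comp (algebraMap k0 k)).toAlgebra
    have : IsScalarTower k0 k K := IsScalarTower.of_algebraMap_eq fun _ => rfl
    obtain ⟨h1, h2⟩ := (hPT k0 k K n ι e Y c μ z).1 hz
    obtain ⟨x, hx⟩ : ∃ x : Fin (n + 1) → K, x = Fin.cons 1 (fun a => z (Sum.inl a)) := ⟨_, rfl⟩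
    rw [← hx] at h2
    obtain ⟨hd1, hd2, hnc', hv⟩ := hDZ k K htr n ι e c μ z x hx h2
    have hm := hMA k0 k K htr n r ι e μ c hc D hD0 x (by rw [hx]; rfl)
      (fun J hJ => hY K (fun a => z (Sum.inl a)) h1 J (by
        have h3 : (fun j => x (J j).succ) = fun j => z (Sum.inl (J j)) := by
          rw [hx]
          rfl
        rw [← h3]
        exact hJ))
      (hnc' hnc) S (fun v hvS => hv v (hreg v hvS))
    rw [hd1]
    refine ⟨?_, ?_⟩
    · rw [hε]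
      exact hm
    · rw [hC1]
      exact hd2
  refine ⟨?_, ?_⟩
  · intro K _ _ _ htr S z hz hreg hnc D hD0
    rw [← hε]
    exact (key K htr S z hz hreg hnc D hD0).1
  · intro K _ _ _ htr S z hz hreg hnc _ D hD0
    obtain ⟨h1, h2⟩ := key K htr S z hz hreg hnc D hD0
    have h3 : ((deg k z : ℤ) : ℚ) ≤ ((⌈(C1 : ℚ) / ε⌉₊ * (canDeg D + S.card) : ℤ) : ℚ) := by
      have h4 : (deg k z : ℚ) ≤ C1 * deg k (fun a => z (Sum.inl a)) := by exact_mod_cast h2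
      have h5 : (0 : ℚ) ≤ ((canDeg D + S.card : ℤ) : ℚ) :=
        le_trans (mul_nonneg hε0.le (Nat.cast_nonneg _)) h1
      have h6 : (C1 : ℚ) * deg k (fun a => z (Sum.inl a)) ≤
          (C1 : ℚ) / ε * ((canDeg D + S.card : ℤ) : ℚ) := by
        rw [div_mul_eq_mul_div, le_div_iff₀ hε0]
        have := mul_le_mul_of_nonneg_left h1 (Nat.cast_nonneg (α := ℚ) C1)
        linarith
      have h7 : (C1 : ℚ) / ε * ((canDeg D + S.card : ℤ) : ℚ) ≤
          (⌈(C1 : ℚ) / ε⌉₊ : ℚ) * ((canDeg D + S.card : ℤ) : ℚ) :=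
        mul_le_mul_of_nonneg_right (Nat.le_ceil _) h5
      push_cast at h7 h6 ⊢
      linarith
    exact_mod_cast h3

end Pool.Agent.H17.VS
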